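import Mathlib
import Pool.Agent.Helper126.Sus.Forc

/-!
# The countable ordinals, ladders, and a reflection lemma
-/

namespace Pool.Agent.H172Z.Unif

open Cardinal Pool.Agent.Helper126.Sus.Forc

theorem mk_K1 : #K1 = ℵ_ 1 := by rw [mk_toType, card_ord]

theorem not_countable_K1 : ¬ Countable K1 := by
  rw [← mk_le_aleph0_iff, mk_K1, not_le]
  exact aleph0_lt_aleph_one

theorem countable_Iio (α : K1) : (Set.Iio α).Countable := by
  have h : #(Set.Iio α) < #K1 := Cardinal.mk_Iio_lt α (by simp [K1])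
  rw [← Cardinal.le_aleph0_iff_set_countable]
  have h1 : #K1 = Order.succ ℵ₀ := by
    rw [mk_toType, card_ord]; exact succ_aleph0.symm
  exact Order.lt_succ_iff.1 (h.trans_eq h1)

theorem countable_Iic (s : K1) : (Set.Iic s).Countable := by
  have : Set.Iic s = insert s (Set.Iio s) := by
    ext x
    simp only [Set.mem_Iic, Set.mem_insert_iff, Set.mem_Iio]
    exact le_iff_eq_or_lt
  rw [this]
  exact (countable_Iio s).insert s

theorem exists_bound (S : Set K1) (hS : S.Countable) : ∃ u, ∀ s ∈ S, s < u := by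
  by_contra hcon
  push Not at hcon
  apply not_countable_K1
  have h1 : (Set.univ : Set K1) = ⋃ s ∈ S, Set.Iic s := by
    ext u
    obtain ⟨s, hs, hu⟩ := hcon u
    simp only [Set.mem_univ, Set.mem_iUnion, true_iff]
    exact ⟨s, hs, hu⟩
  have h2 : (Set.univ : Set K1).Countable := by
    rw [h1]
    exact hS.biUnion fun s _ => countable_Iic s
  exact Set.countable_univ_iff.1 h2

theorem exists_gt (x : K1) : ∃ y, x < y := by
  obtain ⟨u, hu⟩ := exists_bound {x} (Set.countable_singleton x)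
  exact ⟨u, hu x rfl⟩

theorem exists_min : ∃ b : K1, ∀ x, b ≤ x := by
  obtain ⟨u, _⟩ := exists_bound ∅ Set.countable_empty
  obtain ⟨b, _, hb⟩ := WellFounded.has_min (wellFounded_lt (α := K1)) Set.univ ⟨u, trivial⟩
  exact ⟨b, fun x => not_lt.1 (hb x trivial)⟩

/-- limit ordinals closed under a given function -/
theorem exists_closed (b : K1 → K1) (x0 : K1) :
    ∃ δ : K1, Order.IsSuccLimit δ ∧ x0 < δ ∧ ∀ ξ < δ, b ξ < δ := by
  have hstep : ∀ x : K1, ∃ u, x < u ∧ ∀ ξ ≤ x, b ξ < u := by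
    intro x
    obtain ⟨u, hu⟩ := exists_bound (insert x (b '' Set.Iic x))
      (((countable_Iic x).image b).insert x)
    exact ⟨u, hu x (Set.mem_insert _ _), fun ξ hξ => hu _ (Or.inr ⟨ξ, hξ, rfl⟩)⟩
  choose h hh1 hh2 using hstep
  let d : ℕ → K1 := fun n => Nat.rec x0 (fun _ y => h y) n
  have hd : ∀ n, d (n + 1) = h (d n) := fun n => rfl
  have hne : {u : K1 | ∀ n, d n < u}.Nonempty := by
    obtain ⟨u, hu⟩ := exists_bound (Set.range d) (Set.countable_range d)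
    exact ⟨u, fun n => hu _ ⟨n, rfl⟩⟩
  obtain ⟨δ, hδ, hmin⟩ := WellFounded.has_min (wellFounded_lt (α := K1)) _ hne
  have hlow : ∀ ξ < δ, ∃ n, ξ ≤ d n := by
    intro ξ hξ
    by_contra hcon
    push Not at hcon
    exact hmin ξ hcon hξ
  refine ⟨δ, ⟨fun hm => ?_, fun c hc => ?_⟩, hδ 0, fun ξ hξ => ?_⟩
  · exact absurd (hm (hδ 0).le) (not_le.2 (hδ 0))
  · obtain ⟨n, hn⟩ := hlow c hc.lt
    have h1 : c < d (n + 1) := by rw [hd]; exact hn.trans_lt (hh1 _)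
    exact hc.2 h1 (hδ (n + 1))
  · obtain ⟨n, hn⟩ := hlow ξ hξ
    have h1 : b ξ < d (n + 1) := by rw [hd]; exact hh2 _ _ hn
    exact h1.trans (hδ (n + 1))

theorem exists_between {α x : K1} (hα : Order.IsSuccLimit α) (hx : x < α) :
    ∃ y, x < y ∧ y < α := by
  by_contra hcon
  push Not at hcon
  exact hα.2 x ⟨hx, fun y hy => not_lt.2 (hcon y hy)⟩

theorem exists_lt_of_limit {α : K1} (hα : Order.IsSuccLimit α) : ∃ x, x < α := by
  have := hα.1
  rw [isMin_iff_forall_not_lt] at this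
  push Not at this
  exact this

/-- finitely many elements below a limit -/
theorem exists_lt_limit {α : K1} (hα : Order.IsSuccLimit α) {S : Set K1} (hS : S.Finite)
    (h : ∀ s ∈ S, s < α) : ∃ μ < α, ∀ s ∈ S, s < μ := by
  induction S, hS using Set.Finite.induction_on with
  | empty =>
    obtain ⟨b, hb⟩ := exists_lt_of_limit hα
    exact ⟨b, hb, by simp⟩
  | insert _ _ ih =>
    rename_i a S _ _
    obtain ⟨μ, h1, h2⟩ := ih fun s hs => h s (Or.inr hs)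
    obtain ⟨σ, h3, h4⟩ := exists_between hα (h a (Or.inl rfl))
    refine ⟨max μ σ, max_lt h1 h4, ?_⟩
    rintro s (rfl | hs)
    · exact h3.trans_le (le_max_right _ _)
    · exact (h2 s hs).trans_le (le_max_left _ _)

theorem exists_ladder_at (α : K1) (hα : Order.IsSuccLimit α) : ∃ C : Set K1, (∀ ξ ∈ C, ξ < α) ∧
    (∀ η < α, ∃ ξ ∈ C, η ≤ ξ) ∧ ∀ η < α, {ξ ∈ C | ξ < η}.Finite := by
  have hne : Nonempty (Set.Iio α) := by
    obtain ⟨b, hb⟩ := exists_lt_of_limit hα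
    exact ⟨⟨b, hb⟩⟩
  have hcount : Countable (Set.Iio α) := countable_Iio α
  obtain ⟨a, ha⟩ := exists_surjective_nat (Set.Iio α)
  have key : ∀ η < α, ∃ n, η ≤ (a n).1 ∧ ∀ m < n, (a m).1 < η := by
    intro η hη
    obtain ⟨n0, hn0⟩ := ha ⟨η, hη⟩
    have hex : ∃ n, η ≤ (a n).1 := ⟨n0, by rw [hn0]⟩
    classical
    refine ⟨Nat.find hex, Nat.find_spec hex, fun m hm => ?_⟩
    exact not_le.1 (Nat.find_min hex hm)
  refine ⟨{x | ∃ n, (a n).1 = x ∧ ∀ m < n, (a m).1 < (a n).1}, ?_, fun η hη => ?_,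
    fun η hη => ?_⟩
  · rintro ξ ⟨n, rfl, _⟩
    exact (a n).2
  · obtain ⟨n, hn1, hn2⟩ := key η hη
    exact ⟨(a n).1, ⟨n, rfl, fun m hm => (hn2 m hm).trans_le hn1⟩, hn1⟩
  · obtain ⟨n0, hn1, _⟩ := key η hη
    refine ((Set.finite_lt_nat n0).image fun n => (a n).1).subset ?_
    rintro ξ ⟨⟨n, rfl, hn⟩, hξ⟩
    refine ⟨n, ?_, rfl⟩
    by_contra hcon
    have hcon' : n0 ≤ n := not_lt.1 hcon
    rcases Nat.lt_or_eq_of_le hcon' with h | h
    · exact absurd (hn1.trans_lt (hn n0 h)) (not_lt.2 hξ.le)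
    · subst h; exact absurd hξ (not_lt.2 hn1)

theorem exists_isLadder : ∃ C : K1 → Set K1, IsLadder C := by
  have h : ∀ α : K1, ∃ C : Set K1, Order.IsSuccLimit α → (∀ ξ ∈ C, ξ < α) ∧
      (∀ η < α, ∃ ξ ∈ C, η ≤ ξ) ∧ ∀ η < α, {ξ ∈ C | ξ < η}.Finite := by
    intro α
    by_cases hα : Order.IsSuccLimit α
    · obtain ⟨C, hC⟩ := exists_ladder_at α hα
      exact ⟨C, fun _ => hC⟩
    · exact ⟨∅, fun h => absurd h hα⟩
  choose C hC using h
  refine ⟨C, fun α hα => (hC α hα).1, fun α hα η hη => ?_, fun α hα => (hC α hα).2.2⟩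
  obtain ⟨y, h1, h2⟩ := exists_between hα hη
  obtain ⟨ξ, h3, h4⟩ := (hC α hα).2.1 y h2
  exact ⟨ξ, h3, h1.trans_le h4⟩

theorem ladder_inter_finite {C : K1 → Set K1} (hC : IsLadder C) {α α' : K1}
    (hα : Order.IsSuccLimit α) (hα' : Order.IsSuccLimit α') (hne : α ≠ α') :
    {ξ | ξ ∈ C α ∧ ξ ∈ C α'}.Finite := by
  rcases lt_or_gt_of_ne hne with h | h
  · exact (hC.finite α' hα' α h).subset fun ξ hξ => ⟨hξ.2, hC.lt α hα ξ hξ.1⟩
  · exact (hC.finite α hα α' h).subset fun ξ hξ => ⟨hξ.1, hC.lt α' hα' ξ hξ.2⟩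

/-- a point of the ladder outside a finite set -/
theorem exists_mem_ladder_not_mem {C : K1 → Set K1} (hC : IsLadder C) {α : K1}
    (hα : Order.IsSuccLimit α) {F : Set K1} (hF : F.Finite) : ∃ ξ ∈ C α, ξ ∉ F := by
  obtain ⟨μ, h1, h2⟩ := exists_lt_limit hα (S := {x ∈ F | x < α}) (hF.subset fun x hx => hx.1)
    fun s hs => hs.2
  obtain ⟨ξ, h3, h4⟩ := hC.cofinal α hα μ h1
  refine ⟨ξ, h3, fun h => ?_⟩
  exact absurd (h2 ξ ⟨h, hC.lt α hα ξ h3⟩) (not_lt.2 h4.le)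

/-- The reflection lemma: one type is realised by ladders which jump arbitrarily far. -/
theorem jump {C : K1 → Set K1} (hC : IsLadder C) {Y : Type} (η0 : K1 → K1)
    (h0 : ∀ δ, Order.IsSuccLimit δ → η0 δ < δ) (τ : K1 → K1 → Y)
    (hc : ∀ η, {y | ∃ δ, Order.IsSuccLimit δ ∧ η0 δ ≤ η ∧ η < δ ∧ τ δ η = y}.Countable) :
    ∃ η y, ∀ θ, ∃ δ, Order.IsSuccLimit δ ∧ η0 δ ≤ η ∧ η < δ ∧ τ δ η = y ∧
      ∀ ξ ∈ C δ, ξ < θ → ξ < η := by
  by_contra hcon
  push Not at hcon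
  choose θ hθ using hcon
  have hb : ∀ η, ∃ u, ∀ δ, Order.IsSuccLimit δ → η0 δ ≤ η → η < δ →
      ∃ ξ ∈ C δ, ξ < u ∧ η ≤ ξ := by
    intro η
    obtain ⟨u, hu⟩ := exists_bound _ ((hc η).image (θ η))
    refine ⟨u, fun δ h1 h2 h3 => ?_⟩
    obtain ⟨ξ, h4, h5, h6⟩ := hθ η (τ δ η) δ h1 h2 h3 rfl
    exact ⟨ξ, h4, h5.trans (hu _ ⟨τ δ η, ⟨δ, h1, h2, h3, rfl⟩, rfl⟩), h6⟩
  choose b hb using hb
  choose e he1 he2 he3 using exists_closed b
  obtain ⟨x0, _⟩ := exists_min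
  obtain ⟨δ, hδ1, _, hδ3⟩ := exists_closed e x0
  have h1 : e (η0 δ) < δ := hδ3 _ (h0 δ hδ1)
  obtain ⟨μ, h2, h3⟩ := exists_lt_limit (he1 (η0 δ))
    (S := insert (η0 δ) {ξ | ξ ∈ C δ ∧ ξ < e (η0 δ)}) ((hC.finite δ hδ1 _ h1).insert _) (by
      rintro s (rfl | hs)
      · exact he2 _
      · exact hs.2)
  obtain ⟨ξ, h4, h5, h6⟩ := hb μ δ hδ1 (h3 _ (Set.mem_insert _ _)).le (h2.trans h1)
  have h7 : ξ < e (η0 δ) := h5.trans (he3 _ μ h2)
  exact absurd (h3 ξ (Or.inr ⟨h4, h7⟩)) (not_lt.2 h6)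

theorem countable_finsets {X : Type} {S : Set X} (hS : S.Countable) :
    {F : Finset X | ∀ x ∈ F, x ∈ S}.Countable := by
  have h := Set.countable_ofPred_finite_subset hS
  refine (h.preimage_of_injOn (f := fun F : Finset X => (F : Set X))
    (Finset.coe_injective.injOn)).mono fun F hF => ?_
  exact ⟨F.finite_toSet, fun y hy => hF y hy⟩

end Pool.Agent.H172Z.Unif
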