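import Mathlib
import Pool.Agent.H172Z.Unif.Om

/-!
# A finite support iteration uniformizing all 2-colourings over a Cohen colouring
-/

namespace Pool.Agent.H172Z.Unif

open Cardinal Pool.Agent.Helper126.Sus.Forc

set_option linter.unusedSectionVars false

/-- pieces of information: a value of the Cohen colouring, a value of a uniformizing function,
a promise to follow the colouring on a ladder -/
inductive Atom (J L : Type) : Type
  | co : K1 → K1 → ℕ → Atom J L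
  | ph : J → L → K1 → Bool → Atom J L
  | pm : J → L → K1 → Atom J L

abbrev Rep (J L : Type) : Type := Finset (Atom J L)

variable {J L : Type}

/-- the atom belongs to the stages in `S` -/
def inS (S : Set J) : Atom J L → Prop
  | .co _ _ _ => True
  | .ph j _ _ _ => j ∈ S
  | .pm j _ _ => j ∈ S

theorem inS_mono {S S' : Set J} (h : S ⊆ S') {x : Atom J L} (hx : inS S x) : inS S' x := by
  cases x with
  | co _ _ _ => trivial
  | ph j _ _ _ => exact h hx
  | pm j _ _ => exact h hx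

theorem inS_univ (x : Atom J L) : inS Set.univ x := by
  cases x <;> trivial

/-- valid conditions -/
structure Valid (C : K1 → Set K1) (p : Rep J L) : Prop where
  co : ∀ {α ξ k k'}, Atom.co α ξ k ∈ p → Atom.co α ξ k' ∈ p → k = k'
  ph : ∀ {j β ξ b b'}, Atom.ph j β ξ b ∈ p → Atom.ph j β ξ b' ∈ p → b = b'
  lim : ∀ {j β α}, Atom.pm j β α ∈ p → Order.IsSuccLimit α
  cov : ∀ {j β α α' ξ}, Atom.pm j β α ∈ p → Atom.pm j β α' ∈ p → α ≠ α' → ξ ∈ C α → ξ ∈ C α' →
    ∃ b, Atom.ph j β ξ b ∈ p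

/-- `q` decides the truth value of the name `N` -/
def DecR (C : K1 → Set K1) (le : Rep J L → Rep J L → Prop) (q : Rep J L) (N : Set (Rep J L))
    (b : Bool) : Prop :=
  (b = true → ∃ e ∈ N, le q e) ∧ (b = false → ∀ e ∈ N, ∀ r, Valid C r → le r q → ¬ le r e)

variable [LinearOrder J] [WellFoundedLT J] (C : K1 → Set K1) (g : L → K1 → K1 → Set (Rep J L))

/-- the order at the stage `i` -/
noncomputable def Rel : J → Rep J L → Rep J L → Prop :=
  WellFoundedLT.fix (motive := fun _ : J => Rep J L → Rep J L → Prop) fun i D q p =>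
    ∀ β α ξ b, Atom.pm i β α ∈ p → ξ ∈ C α → Atom.ph i β ξ b ∈ q → Atom.ph i β ξ b ∉ p →
      DecR C (fun q' p' => (∀ x ∈ p', inS (Set.Iio i) x → x ∈ q') ∧
        ∀ i', ∀ h : i' < i, D i' h q' p') q (g β α ξ) b

/-- the order on the stages in `S` -/
def LE (S : Set J) (q p : Rep J L) : Prop :=
  (∀ x ∈ p, inS S x → x ∈ q) ∧ ∀ i ∈ S, Rel C g i q p

def Dec (i : J) (q : Rep J L) (N : Set (Rep J L)) (b : Bool) : Prop :=
  DecR C (LE C g (Set.Iio i)) q N b

theorem Rel_iff {i : J} {q p : Rep J L} : Rel C g i q p ↔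
    ∀ β α ξ b, Atom.pm i β α ∈ p → ξ ∈ C α → Atom.ph i β ξ b ∈ q → Atom.ph i β ξ b ∉ p →
      Dec C g i q (g β α ξ) b := by
  rw [Rel, WellFoundedLT.fix_eq]
  rfl

variable {C g}

theorem LE_mono {S S' : Set J} (h : S ⊆ S') {q p : Rep J L} (hle : LE C g S' q p) :
    LE C g S q p :=
  ⟨fun x hx hS => hle.1 x hx (inS_mono h hS), fun i hi => hle.2 i (h hi)⟩

/-- no new values -/
theorem LE_of_sub {S : Set J} {q p : Rep J L} (h1 : ∀ x ∈ p, inS S x → x ∈ q)
    (h2 : ∀ i ∈ S, ∀ β ξ b, Atom.ph i β ξ b ∈ q → Atom.ph i β ξ b ∈ p) : LE C g S q p :=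
  ⟨h1, fun i hi => (Rel_iff C g).2 fun β _ ξ b _ _ h3 h4 => absurd (h2 i hi β ξ b h3) h4⟩

theorem LE_refl (S : Set J) (p : Rep J L) : LE C g S p p :=
  LE_of_sub (fun _ hx _ => hx) fun _ _ _ _ _ h => h

theorem Dec_mono_of {i : J}
    (ht : ∀ r q p : Rep J L, LE C g (Set.Iio i) r q → LE C g (Set.Iio i) q p →
      LE C g (Set.Iio i) r p)
    {r q : Rep J L} {N : Set (Rep J L)} {b : Bool} (h : LE C g (Set.Iio i) r q)
    (hd : Dec C g i q N b) : Dec C g i r N b := by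
  refine ⟨fun hb => ?_, fun hb e he s hs h1 => ?_⟩
  · obtain ⟨e, he, h1⟩ := hd.1 hb
    exact ⟨e, he, ht _ _ _ h h1⟩
  · exact hd.2 hb e he s hs (ht _ _ _ h1 h)

theorem LE_trans_of {S : Set J} (hS : IsLowerSet S)
    (ht : ∀ i ∈ S, ∀ r q p : Rep J L, LE C g (Set.Iio i) r q → LE C g (Set.Iio i) q p →
      LE C g (Set.Iio i) r p)
    {r q p : Rep J L} (h1 : LE C g S r q) (h2 : LE C g S q p) : LE C g S r p := by
  refine ⟨fun x hx hS' => h1.1 x (h2.1 x hx hS') hS', fun i hi => ?_⟩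
  rw [Rel_iff]
  intro β α ξ b h3 h4 h5 h6
  by_cases h7 : Atom.ph i β ξ b ∈ q
  · refine Dec_mono_of (ht i hi) (LE_mono (fun i' h' => hS (le_of_lt h') hi) h1) ?_
    exact (Rel_iff C g).1 (h2.2 i hi) β α ξ b h3 h4 h7 h6
  · exact (Rel_iff C g).1 (h1.2 i hi) β α ξ b (h2.1 _ h3 hi) h4 h5 h7

theorem LE_trans_Iio (i : J) : ∀ r q p : Rep J L, LE C g (Set.Iio i) r q →
    LE C g (Set.Iio i) q p → LE C g (Set.Iio i) r p := by
  induction i using WellFoundedLT.induction with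
  | ind i IH => exact fun r q p h1 h2 => LE_trans_of (isLowerSet_Iio i) IH h1 h2

theorem LE_trans {S : Set J} (hS : IsLowerSet S) {r q p : Rep J L} (h1 : LE C g S r q)
    (h2 : LE C g S q p) : LE C g S r p :=
  LE_trans_of hS (fun i _ => LE_trans_Iio i) h1 h2

theorem Dec_mono {i : J} {r q : Rep J L} {N : Set (Rep J L)} {b : Bool}
    (h : LE C g (Set.Iio i) r q) (hd : Dec C g i q N b) : Dec C g i r N b :=
  Dec_mono_of (LE_trans_Iio i) h hd

theorem exists_dec {i : J} {q : Rep J L} (hq : Valid C q) (N : Set (Rep J L)) :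
    ∃ r, Valid C r ∧ LE C g (Set.Iio i) r q ∧ ∃ b, Dec C g i r N b := by
  by_cases h : ∃ e ∈ N, ∃ r, Valid C r ∧ LE C g (Set.Iio i) r q ∧ LE C g (Set.Iio i) r e
  · obtain ⟨e, he, r, h1, h2, h3⟩ := h
    exact ⟨r, h1, h2, true, fun _ => ⟨e, he, h3⟩, fun hb => absurd hb (by simp)⟩
  · push Not at h
    exact ⟨q, hq, LE_refl _ _, false, fun hb => absurd hb (by simp),
      fun _ e he r h1 h2 => h e he r h1 h2⟩

theorem exists_dec_finset {i : J} {X : Type} (F : Finset X) (N : X → Set (Rep J L))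
    {q : Rep J L} (hq : Valid C q) :
    ∃ r, Valid C r ∧ LE C g (Set.Iio i) r q ∧ ∃ b : X → Bool, ∀ x ∈ F, Dec C g i r (N x) (b x) := by
  classical
  induction F using Finset.induction_on with
  | empty => exact ⟨q, hq, LE_refl _ _, fun _ => true, by simp⟩
  | insert x F _ ih =>
    obtain ⟨r, h1, h2, b, h3⟩ := ih
    obtain ⟨s, h4, h5, c, h6⟩ := exists_dec (g := g) (i := i) h1 (N x)
    refine ⟨s, h4, LE_trans (isLowerSet_Iio i) h5 h2, fun y => if y = x then c else b y, ?_⟩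
    intro y hy
    by_cases hyx : y = x
    · subst hyx
      simpa using h6
    · simp only [if_neg hyx]
      rcases Finset.mem_insert.1 hy with h | h
      · exact absurd h hyx
      · exact Dec_mono h5 (h3 y h)

/-- the hypotheses under which conditions fit together outside the finite set `R × X` -/
structure Fit {ι : Type} (C : K1 → Set K1) (p : ι → Rep J L) (R : Set (J × L)) (X : Set K1) :
    Prop where
  val : ∀ n, Valid C (p n)
  co : ∀ {m n α ξ k k'}, Atom.co α ξ k ∈ p m → Atom.co α ξ k' ∈ p n → k = k'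
  ph : ∀ {m n j β ξ b b'}, Atom.ph j β ξ b ∈ p m → Atom.ph j β ξ b' ∈ p n → b = b'
  pull : ∀ {m n j β α ξ b}, Atom.pm j β α ∈ p n → Atom.ph j β ξ b ∈ p m → ξ ∈ C α →
    Atom.ph j β ξ b ∈ p n
  cov : ∀ {m n j β α α' ξ}, Atom.pm j β α ∈ p m → Atom.pm j β α' ∈ p n → α ≠ α' → ξ ∈ C α →
    ξ ∈ C α' → (∃ l b, (l = m ∨ l = n) ∧ Atom.ph j β ξ b ∈ p l) ∨ ((j, β) ∈ R ∧ ξ ∈ X)

/-- putting together a common extension on an initial part, the rest of the conditions, and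
some new values -/
theorem assemble {ι : Type} {p : ι → Rep J L} {R : Set (J × L)} {X : Set K1}
    (hfit : Fit C p R X) (I : Finset ι) {S0 S : Set J} (hS0 : IsLowerSet S0)
    {r0 : Rep J L} (hr0 : Valid C r0) (hle : ∀ n ∈ I, LE C g S0 r0 (p n)) (E : Rep J L)
    (hE0 : ∀ x ∈ E, ∃ j β ξ b, x = Atom.ph j β ξ b ∧ S0 = Set.Iio j)
    (hE1 : ∀ j β ξ b b', Atom.ph j β ξ b ∈ E → Atom.ph j β ξ b' ∈ E → b = b')
    (hE1' : ∀ j β ξ b b', Atom.ph j β ξ b ∈ E → ∀ n ∈ I, Atom.ph j β ξ b' ∉ p n)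
    (hE2 : ∀ j β ξ b, Atom.ph j β ξ b ∈ E → ∀ n ∈ I, ∀ α, Atom.pm j β α ∈ p n → ξ ∈ C α →
      Dec C g j r0 (g β α ξ) b)
    (hE3 : ∀ j β ξ, (j, β) ∈ R → j ∈ S → j ∉ S0 → ξ ∈ X →
      (∃ b, Atom.ph j β ξ b ∈ E) ∨ ∃ n ∈ I, ∃ b, Atom.ph j β ξ b ∈ p n) :
    ∃ r, Valid C r ∧ (∀ n ∈ I, LE C g S r (p n)) ∧ LE C g S0 r r0 ∧ (∀ x ∈ E, x ∈ r) ∧
      ∀ j β α, Atom.pm j β α ∈ r → j ∉ S0 → ∃ n ∈ I, Atom.pm j β α ∈ p n := by
  classical
  let r : Rep J L := r0.filter (inS S0) ∪ (I.biUnion fun n => (p n).filter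
    fun x => inS S x ∧ ¬ inS S0 x) ∪ E
  have hr : ∀ x, x ∈ r ↔ (x ∈ r0 ∧ inS S0 x) ∨ (∃ n ∈ I, x ∈ p n ∧ inS S x ∧ ¬ inS S0 x) ∨
      x ∈ E := by
    intro x
    simp only [r, Finset.mem_union, Finset.mem_filter, Finset.mem_biUnion, or_assoc]
  have hEn : ∀ x ∈ E, ¬ inS S0 x := by
    intro x hx
    obtain ⟨j, β, ξ, b, rfl, h⟩ := hE0 x hx
    rw [h]
    exact lt_irrefl j
  have hlow : ∀ {x}, x ∈ r → inS S0 x → x ∈ r0 := by
    intro x h hx
    rcases (hr x).1 h with h | ⟨n, _, _, _, h⟩ | h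
    · exact h.1
    · exact absurd hx h
    · exact absurd hx (hEn x h)
  have hlow' : ∀ {x}, x ∈ r0 → inS S0 x → x ∈ r := fun h hx => (hr _).2 (Or.inl ⟨h, hx⟩)
  have hhigh : ∀ {x}, x ∈ r → ¬ inS S0 x → (∃ n ∈ I, x ∈ p n ∧ inS S x) ∨ x ∈ E := by
    intro x h hx
    rcases (hr x).1 h with h | ⟨n, h1, h2, h3, _⟩ | h
    · exact absurd h.2 hx
    · exact Or.inl ⟨n, h1, h2, h3⟩
    · exact Or.inr h
  have hpm : ∀ j β α, Atom.pm j β α ∈ r → j ∉ S0 → ∃ n ∈ I, Atom.pm j β α ∈ p n ∧ j ∈ S := by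
    intro j β α h hj
    rcases hhigh h hj with h | h
    · exact h
    · obtain ⟨_, _, _, _, h, _⟩ := hE0 _ h
      exact absurd h (by simp)
  have hin : ∀ n ∈ I, ∀ x ∈ p n, inS S x → x ∈ r := by
    intro n hn x hx hS
    by_cases h : inS S0 x
    · exact hlow' ((hle n hn).1 x hx h) h
    · exact (hr x).2 (Or.inr (Or.inl ⟨n, hn, hx, hS, h⟩))
  have hrr0 : LE C g S0 r r0 :=
    LE_of_sub (fun x hx h => hlow' hx h) fun i hi β ξ b h => hlow h hi
  refine ⟨r, ⟨?_, ?_, ?_, ?_⟩, fun n hn => ⟨hin n hn, fun i hi => ?_⟩, hrr0,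
    fun x hx => (hr x).2 (Or.inr (Or.inr hx)), fun j β α h hj => ?_⟩
  · intro α ξ k k' h1 h2
    exact hr0.co (hlow h1 trivial) (hlow h2 trivial)
  · intro j β ξ b b' h1 h2
    by_cases hj : j ∈ S0
    · exact hr0.ph (hlow h1 hj) (hlow h2 hj)
    · rcases hhigh h1 hj with ⟨n, hn, h3, _⟩ | h3
      · rcases hhigh h2 hj with ⟨m, _, h4, _⟩ | h4
        · exact hfit.ph h3 h4
        · exact absurd h3 (hE1' _ _ _ _ _ h4 n hn)
      · rcases hhigh h2 hj with ⟨m, hm, h4, _⟩ | h4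
        · exact absurd h4 (hE1' _ _ _ _ _ h3 m hm)
        · exact hE1 _ _ _ _ _ h3 h4
  · intro j β α h
    by_cases hj : j ∈ S0
    · exact hr0.lim (hlow h hj)
    · obtain ⟨n, _, h1, _⟩ := hpm j β α h hj
      exact (hfit.val n).lim h1
  · intro j β α α' ξ h1 h2 hne h3 h4
    by_cases hj : j ∈ S0
    · obtain ⟨b, hb⟩ := hr0.cov (hlow h1 hj) (hlow h2 hj) hne h3 h4
      exact ⟨b, hlow' hb hj⟩
    · obtain ⟨m, hm, h5, hjS⟩ := hpm j β α h1 hj
      obtain ⟨n, hn, h6, _⟩ := hpm j β α' h2 hj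
      rcases hfit.cov h5 h6 hne h3 h4 with ⟨l, b, hl, hb⟩ | ⟨h7, h8⟩
      · refine ⟨b, hin l ?_ _ hb hjS⟩
        rcases hl with rfl | rfl
        · exact hm
        · exact hn
      · rcases hE3 j β ξ h7 hjS hj h8 with ⟨b, hb⟩ | ⟨l, hl, b, hb⟩
        · exact ⟨b, (hr _).2 (Or.inr (Or.inr hb))⟩
        · exact ⟨b, hin l hl _ hb hjS⟩
  · rw [Rel_iff]
    intro β α ξ b h1 h2 h3 h4
    by_cases hj : i ∈ S0
    · refine Dec_mono (LE_mono (fun i' h' => hS0 (le_of_lt h') hj) hrr0) ?_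
      exact (Rel_iff C g).1 ((hle n hn).2 i hj) β α ξ b h1 h2 (hlow h3 hj) h4
    · rcases hhigh h3 hj with ⟨m, _, h5, _⟩ | h5
      · exact absurd (hfit.pull h1 h5 h2) h4
      · obtain ⟨j, β', ξ', b', h6, h7⟩ := hE0 _ h5
        injection h6 with h8 _ _ _
        subst h8
        refine Dec_mono ?_ (hE2 _ _ _ _ h5 n hn α h1 h2)
        rw [← h7]
        exact hrr0
  · obtain ⟨n, hn, h1, _⟩ := hpm j β α h hj
    exact ⟨n, hn, h1⟩

theorem fit_single {q : Rep J L} (hq : Valid C q) : Fit C (fun _ : Unit => q) ∅ ∅ :=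
  ⟨fun _ => hq, fun h h' => hq.co h h', fun h h' => hq.ph h h', fun _ h _ => h,
    fun h h' hne h1 h2 => by
      obtain ⟨b, hb⟩ := hq.cov h h' hne h1 h2
      exact Or.inl ⟨(), b, Or.inl rfl, hb⟩⟩

/-- adding a value -/
theorem add_ph {q : Rep J L} (hq : Valid C q) (i : J) (β : L) (ξ : K1) :
    ∃ r, Valid C r ∧ LE C g Set.univ r q ∧ (∃ b, Atom.ph i β ξ b ∈ r) ∧
      ∀ β' α, Atom.pm i β' α ∈ r → Atom.pm i β' α ∈ q := by
  classical
  by_cases h : ∃ b, Atom.ph i β ξ b ∈ q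
  · exact ⟨q, hq, LE_refl _ _, h, fun _ _ h => h⟩
  have h0 : ∃ r0, Valid C r0 ∧ LE C g (Set.Iio i) r0 q ∧ ∃ b, ∀ α, Atom.pm i β α ∈ q →
      ξ ∈ C α → Dec C g i r0 (g β α ξ) b := by
    by_cases h1 : ∃ α, Atom.pm i β α ∈ q ∧ ξ ∈ C α
    · obtain ⟨α, h2, h3⟩ := h1
      obtain ⟨r0, h4, h5, b, h6⟩ := exists_dec (g := g) (i := i) hq (g β α ξ)
      refine ⟨r0, h4, h5, b, fun α' h7 h8 => ?_⟩
      by_cases h9 : α = α'
      · rw [← h9]; exact h6
      · exact absurd (hq.cov h2 h7 h9 h3 h8) h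
    · exact ⟨q, hq, LE_refl _ _, true, fun α h2 h3 => absurd ⟨α, h2, h3⟩ h1⟩
  obtain ⟨r0, h1, h2, b, h3⟩ := h0
  obtain ⟨r, h4, h5, _, h6, h7⟩ := assemble (g := g) (fit_single hq) {()} (S := Set.univ)
    (isLowerSet_Iio i) h1 (fun _ _ => h2) {Atom.ph i β ξ b}
    (fun x hx => ⟨i, β, ξ, b, Finset.mem_singleton.1 hx, rfl⟩)
    (fun j β' ξ' b' b'' h8 h9 => by
      have h10 := Finset.mem_singleton.1 h8
      have h11 := Finset.mem_singleton.1 h9
      injection h10 with _ _ _ h12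
      injection h11 with _ _ _ h13
      rw [h12, h13])
    (fun j β' ξ' b' b'' h8 _ _ h9 => by
      have h10 := Finset.mem_singleton.1 h8
      injection h10 with h11 h12 h13 _
      subst h11 h12 h13
      exact h ⟨_, h9⟩)
    (fun j β' ξ' b' h8 _ _ α h9 h10 => by
      have h11 := Finset.mem_singleton.1 h8
      injection h11 with h12 h13 h14 h15
      subst h12 h13 h14 h15
      exact h3 α h9 h10)
    (fun _ _ _ h8 => absurd h8 (Set.notMem_empty _))
  refine ⟨r, h4, h5 () (Finset.mem_singleton_self _), ⟨b, h6 _ (Finset.mem_singleton_self _)⟩,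
    fun β' α h8 => ?_⟩
  obtain ⟨_, _, h9⟩ := h7 i β' α h8 (lt_irrefl i)
  exact h9

theorem add_ph_finite {q : Rep J L} (hq : Valid C q) (i : J) (β : L) {F : Set K1}
    (hF : F.Finite) :
    ∃ r, Valid C r ∧ LE C g Set.univ r q ∧ (∀ ξ ∈ F, ∃ b, Atom.ph i β ξ b ∈ r) ∧
      ∀ β' α, Atom.pm i β' α ∈ r → Atom.pm i β' α ∈ q := by
  induction F, hF using Set.Finite.induction_on with
  | empty => exact ⟨q, hq, LE_refl _ _, by simp, fun _ _ h => h⟩
  | insert _ _ ih =>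
    rename_i a S _ _
    obtain ⟨r, h1, h2, h3, h4⟩ := ih
    obtain ⟨s, h5, h6, h7, h8⟩ := add_ph (g := g) h1 i β a
    refine ⟨s, h5, LE_trans isLowerSet_univ h6 h2, ?_, fun β' α h => h4 β' α (h8 β' α h)⟩
    rintro ξ (rfl | hξ)
    · exact h7
    · obtain ⟨b, hb⟩ := h3 ξ hξ
      exact ⟨b, h6.1 _ hb (inS_univ _)⟩

/-- adding a promise -/
theorem add_pm (hC : IsLadder C) {q : Rep J L} (hq : Valid C q) (i : J) (β : L) {α : K1}
    (hα : Order.IsSuccLimit α) :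
    ∃ r, Valid C r ∧ LE C g Set.univ r q ∧ Atom.pm i β α ∈ r := by
  classical
  have hfin : {α' | Atom.pm i β α' ∈ q}.Finite := by
    refine Set.Finite.preimage (f := fun α' => (Atom.pm i β α' : Atom J L)) ?_ q.finite_toSet
    intro a _ b _ h
    injection h
  have hF : (⋃ α' ∈ {α' | Atom.pm i β α' ∈ q ∧ α ≠ α'}, {ξ | ξ ∈ C α ∧ ξ ∈ C α'}).Finite :=
    Set.Finite.biUnion (hfin.subset fun _ h => h.1)
      fun α' h => ladder_inter_finite hC hα (hq.lim h.1) h.2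
  obtain ⟨r, h1, h2, h3, h4⟩ := add_ph_finite (g := g) hq i β hF
  have h5 : ∀ α' ξ, Atom.pm i β α' ∈ r → α ≠ α' → ξ ∈ C α → ξ ∈ C α' →
      ∃ b, Atom.ph i β ξ b ∈ insert (Atom.pm i β α) r := by
    intro α' ξ h6 h7 h8 h9
    obtain ⟨b, hb⟩ := h3 ξ (by
      simp only [Set.mem_iUnion]
      exact ⟨α', ⟨h4 _ _ h6, h7⟩, h8, h9⟩)
    exact ⟨b, Finset.mem_insert_of_mem hb⟩
  refine ⟨insert (Atom.pm i β α) r, ⟨?_, ?_, ?_, ?_⟩,
    LE_trans isLowerSet_univ (LE_of_sub (fun x hx _ => Finset.mem_insert_of_mem hx) ?_) h2,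
    Finset.mem_insert_self _ _⟩
  · intro α ξ k k' h6 h7
    simp only [Finset.mem_insert, reduceCtorEq, false_or] at h6 h7
    exact h1.co h6 h7
  · intro j β ξ b b' h6 h7
    simp only [Finset.mem_insert, reduceCtorEq, false_or] at h6 h7
    exact h1.ph h6 h7
  · intro j β' α' h6
    rcases Finset.mem_insert.1 h6 with h6 | h6
    · injection h6 with _ _ h7
      rw [h7]; exact hα
    · exact h1.lim h6
  · intro j β' a a' ξ h6 h7 hne h8 h9
    rcases Finset.mem_insert.1 h6 with k6 | k6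
    · injection k6 with e1 e2 e3
      subst e1 e2 e3
      rcases Finset.mem_insert.1 h7 with k7 | k7
      · injection k7 with _ _ e3
        exact absurd e3.symm hne
      · exact h5 a' ξ k7 hne h8 h9
    · rcases Finset.mem_insert.1 h7 with k7 | k7
      · injection k7 with e1 e2 e3
        subst e1 e2 e3
        exact h5 a ξ k6 hne.symm h9 h8
      · obtain ⟨b, hb⟩ := h1.cov k6 k7 hne h8 h9
        exact ⟨b, Finset.mem_insert_of_mem hb⟩
  · intro j _ β' ξ b h6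
    simpa only [Finset.mem_insert, reduceCtorEq, false_or] using h6

open Classical in
/-- adding a colour -/
theorem valid_insert_co {q : Rep J L} (hq : Valid C q) {α ξ : K1} (h : ∀ k, Atom.co α ξ k ∉ q)
    (n : ℕ) : Valid C (insert (Atom.co α ξ n) q) := by
  refine ⟨?_, ?_, ?_, ?_⟩
  · intro a x k k' h6 h7
    rcases Finset.mem_insert.1 h6 with k6 | k6
    · injection k6 with e1 e2 e3
      subst e1 e2 e3
      rcases Finset.mem_insert.1 h7 with k7 | k7
      · injection k7 with _ _ e3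
        exact e3.symm
      · exact absurd k7 (h _)
    · rcases Finset.mem_insert.1 h7 with k7 | k7
      · injection k7 with e1 e2 e3
        subst e1 e2 e3
        exact absurd k6 (h _)
      · exact hq.co k6 k7
  · intro j β ξ b b' h6 h7
    simp only [Finset.mem_insert, reduceCtorEq, false_or] at h6 h7
    exact hq.ph h6 h7
  · intro j β' α' h6
    simp only [Finset.mem_insert, reduceCtorEq, false_or] at h6
    exact hq.lim h6
  · intro j β' a a' ξ h6 h7 hne h8 h9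
    simp only [Finset.mem_insert, reduceCtorEq, false_or] at h6 h7 ⊢
    exact hq.cov h6 h7 hne h8 h9

open Classical in
theorem LE_insert_co (q : Rep J L) (α ξ : K1) (n : ℕ) :
    LE C g Set.univ (insert (Atom.co α ξ n) q) q := by
  refine LE_of_sub (fun x hx _ => Finset.mem_insert_of_mem hx) fun j _ β' ξ b h6 => ?_
  simpa only [Finset.mem_insert, reduceCtorEq, false_or] using h6

/-- Amalgamation: only finitely many patterns of two colours have to be matched. -/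
theorem amalg {p : ℕ → Rep J L} {R : Finset (J × L)} {X : Finset K1}
    (hfit : Fit C p R X) : ∀ c : ℕ, ∀ S : Set J, IsLowerSet S →
      {i | i ∈ S ∧ ∃ β, (i, β) ∈ R}.ncard = c → ∀ N : ℕ, ∃ I : Finset ℕ, N ≤ I.card ∧
        ∃ r, Valid C r ∧ ∀ n ∈ I, LE C g S r (p n) := by
  classical
  have hfin : ∀ S : Set J, {i | i ∈ S ∧ ∃ β, (i, β) ∈ R}.Finite := by
    intro S
    refine (R.finite_toSet.image Prod.fst).subset ?_
    rintro i ⟨_, β, h⟩
    exact ⟨(i, β), h, rfl⟩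
  intro c
  induction c using Nat.strong_induction_on with
  | _ c IH =>
  intro S hS hc N
  by_cases hne : {i | i ∈ S ∧ ∃ β, (i, β) ∈ R}.Nonempty
  · obtain ⟨i, hi, hmax⟩ := Set.exists_max_image _ id (hfin S) hne
    have hsub : Set.Iio i ⊆ S := fun i' h' => hS (le_of_lt h') hi.1
    have hlt : {i' | i' ∈ Set.Iio i ∧ ∃ β, (i', β) ∈ R}.ncard < c := by
      rw [← hc]
      refine Set.ncard_lt_ncard ⟨fun i' h' => ⟨hsub h'.1, h'.2⟩, fun h => ?_⟩ (hfin S)
      exact lt_irrefl i (h hi).1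
    let T : Finset ((J × L) × K1) := R ×ˢ X
    obtain ⟨I0, hI0, r0, hr0, hle0⟩ := IH _ hlt (Set.Iio i) (isLowerSet_Iio i) rfl
      (Fintype.card (T → Bool) * N)
    -- the promised ladder through a point
    let a : ℕ → (J × L) × K1 → K1 := fun n t =>
      if h : ∃ α, Atom.pm i t.1.2 α ∈ p n ∧ t.2 ∈ C α then h.choose else t.2
    have ha : ∀ n β ξ α, (∀ b, Atom.ph i β ξ b ∉ p n) → Atom.pm i β α ∈ p n → ξ ∈ C α →
        a n ((i, β), ξ) = α := by
      intro n β ξ α h1 h2 h3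
      have h4 : ∃ α, Atom.pm i β α ∈ p n ∧ ξ ∈ C α := ⟨α, h2, h3⟩
      have h5 : a n ((i, β), ξ) = h4.choose := dif_pos h4
      rw [h5]
      by_contra h6
      obtain ⟨b, hb⟩ := (hfit.val n).cov h4.choose_spec.1 h2 h6 h4.choose_spec.2 h3
      exact h1 b hb
    obtain ⟨r1, hr1, hle1, b, hb⟩ := exists_dec_finset (g := g) (i := i) (I0 ×ˢ T)
      (fun z => g z.2.1.2 (a z.1 z.2) z.2.2) hr0
    obtain ⟨y, _, hy⟩ := Finset.exists_le_card_fiber_of_mul_le_card_of_maps_to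
      (s := I0) (t := (Finset.univ : Finset (T → Bool))) (f := fun n (t : T) => b (n, t.1))
      (n := N) (fun _ _ => Finset.mem_univ _) Finset.univ_nonempty (by
        rw [Finset.card_univ]; exact hI0)
    let I := I0.filter fun n => (fun (t : T) => b (n, t.1)) = y
    let E : Rep J L := (T.attach.filter fun t => t.1.1.1 = i ∧
      ∀ n ∈ I, ∀ b', Atom.ph i t.1.1.2 t.1.2 b' ∉ p n).image
        fun t => Atom.ph i t.1.1.2 t.1.2 (y t)
    have hE : ∀ x, x ∈ E ↔ ∃ β ξ, ∃ h : ((i, β), ξ) ∈ T,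
        (∀ n ∈ I, ∀ b', Atom.ph i β ξ b' ∉ p n) ∧ x = Atom.ph i β ξ (y ⟨_, h⟩) := by
      intro x
      simp only [E, Finset.mem_image, Finset.mem_filter, Finset.mem_attach, true_and]
      constructor
      · rintro ⟨⟨⟨⟨i', β⟩, ξ⟩, ht⟩, ⟨h1, h2⟩, rfl⟩
        have h1' : i' = i := h1
        subst h1'
        exact ⟨β, ξ, ht, h2, rfl⟩
      · rintro ⟨β, ξ, ht, h2, rfl⟩
        exact ⟨⟨_, ht⟩, ⟨rfl, h2⟩, rfl⟩
    obtain ⟨r, h1, h2, _⟩ := assemble (g := g) hfit I (S := S) (isLowerSet_Iio i) hr1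
      (fun n hn => LE_trans (isLowerSet_Iio i) hle1 (hle0 n (Finset.mem_filter.1 hn).1)) E
      (fun x hx => by
        obtain ⟨β, ξ, h, _, rfl⟩ := (hE x).1 hx
        exact ⟨i, β, ξ, _, rfl, rfl⟩)
      (fun j β ξ b1 b2 h3 h4 => by
        obtain ⟨β1, ξ1, h5, _, h6⟩ := (hE _).1 h3
        obtain ⟨β2, ξ2, h7, _, h8⟩ := (hE _).1 h4
        injection h6 with _ e2 e3 e4
        injection h8 with _ e6 e7 e8
        subst e2 e3 e6 e7
        rw [e4, e8])
      (fun j β ξ b1 b2 h3 n hn => by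
        obtain ⟨β1, ξ1, h5, h6, h7⟩ := (hE _).1 h3
        injection h7 with e1 e2 e3 _
        subst e1 e2 e3
        exact h6 n hn b2)
      (fun j β ξ b1 h3 n hn α h4 h4' => by
        obtain ⟨β1, ξ1, h5, h6, h7⟩ := (hE _).1 h3
        injection h7 with e1 e2 e3 e4
        subst e1 e2 e3
        have h8 := hb (n, ((j, β), ξ)) (Finset.mem_product.2 ⟨(Finset.mem_filter.1 hn).1, h5⟩)
        have h9 : b (n, ((j, β), ξ)) = b1 := by
          rw [e4, ← (Finset.mem_filter.1 hn).2]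
        rw [h9] at h8
        have h10 := ha n β ξ α (h6 n hn) h4 h4'
        simp only [h10] at h8
        exact h8)
      (fun j β ξ h3 h4 h5 h6 => by
        have h7 : j = i := le_antisymm (hmax j ⟨h4, β, h3⟩) (not_lt.1 h5)
        subst h7
        by_cases h8 : ∃ n ∈ I, ∃ b, Atom.ph j β ξ b ∈ p n
        · exact Or.inr h8
        · push Not at h8
          have h9 : ((j, β), ξ) ∈ T := Finset.mem_product.2 ⟨h3, h6⟩
          exact Or.inl ⟨_, (hE _).2 ⟨β, ξ, h9, h8, rfl⟩⟩)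
    exact ⟨I, hy, r, h1, h2⟩
  · let r0 : Rep J L := (Finset.range N).biUnion fun n => (p n).filter (inS ∅)
    have hr0 : ∀ x, x ∈ r0 ↔ ∃ n ∈ Finset.range N, x ∈ p n ∧ inS ∅ x := by
      intro x
      simp only [r0, Finset.mem_biUnion, Finset.mem_filter]
    have hv : Valid C r0 := by
      refine ⟨?_, ?_, ?_, ?_⟩
      · intro α ξ k k' h1 h2
        obtain ⟨m, _, h3, _⟩ := (hr0 _).1 h1
        obtain ⟨n, _, h4, _⟩ := (hr0 _).1 h2
        exact hfit.co h3 h4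
      · intro j β ξ b b' h1 _
        obtain ⟨m, _, _, h3⟩ := (hr0 _).1 h1
        exact absurd h3 (Set.notMem_empty _)
      · intro j β α h1
        obtain ⟨m, _, _, h3⟩ := (hr0 _).1 h1
        exact absurd h3 (Set.notMem_empty _)
      · intro j β α α' ξ h1
        obtain ⟨m, _, _, h3⟩ := (hr0 _).1 h1
        exact absurd h3 (Set.notMem_empty _)
    obtain ⟨r, h1, h2, _⟩ := assemble (g := g) hfit (Finset.range N) (S := S) isLowerSet_empty hv
      (fun n hn => ⟨fun x hx h => (hr0 x).2 ⟨n, hn, hx, h⟩,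
        fun i hi => absurd hi (Set.notMem_empty _)⟩) ∅
      (by simp) (by simp) (by simp) (by simp)
      (fun j β ξ h3 h4 _ _ => absurd ⟨j, h4, β, h3⟩ hne)
    exact ⟨Finset.range N, by simp, r, h1, h2⟩

theorem amalg_two {p : ℕ → Rep J L} {R : Finset (J × L)} {X : Finset K1}
    (hfit : Fit C p R X) : ∃ m n, m ≠ n ∧ ∃ r, Valid C r ∧ LE C g Set.univ r (p m) ∧
      LE C g Set.univ r (p n) := by
  obtain ⟨I, h1, r, h2, h3⟩ := amalg (g := g) hfit _ Set.univ isLowerSet_univ rfl 2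
  obtain ⟨m, hm, n, hn, hne⟩ := Finset.one_lt_card.1 (show 1 < I.card from h1)
  exact ⟨m, n, hne, r, h2, h3 m hm, h3 n hn⟩

end Pool.Agent.H172Z.Unif
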