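import Mathlib
import Pool.Agent.H172Z.Unif.Poset

/-!
# Two compatible conditions with different colours at a common point
-/

namespace Pool.Agent.H172Z.Unif

open Cardinal Pool.Agent.Helper126.Sus.Forc

set_option linter.unusedSectionVars false

variable {J L : Type}

/-- the coordinates used by a condition -/
def supp (p : Rep J L) : Set (J × L) :=
  {w | (∃ ξ b, Atom.ph w.1 w.2 ξ b ∈ p) ∨ ∃ α, Atom.pm w.1 w.2 α ∈ p}

theorem supp_finite (p : Rep J L) : (supp p).Finite := by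
  let f : Atom J L → Option (J × L) := fun a => match a with
    | .co _ _ _ => none
    | .ph j β _ _ => some (j, β)
    | .pm j β _ => some (j, β)
  have h1 : (f '' (p : Set (Atom J L))).Finite := p.finite_toSet.image f
  refine (h1.preimage (Option.some_injective _).injOn).subset ?_
  rintro ⟨j, β⟩ (⟨ξ, b, h⟩ | ⟨α, h⟩)
  · exact ⟨_, h, rfl⟩
  · exact ⟨_, h, rfl⟩

def o1 (code : J × L → K1) : Atom J L → K1
  | .co α _ _ => α
  | .ph j β _ _ => code (j, β)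
  | .pm j β _ => code (j, β)

def o2 : Atom J L → K1
  | .co _ ξ _ => ξ
  | .ph _ _ ξ _ => ξ
  | .pm _ _ α => α

theorem exists_code (q : K1 → Rep J L) : ∃ code : J × L → K1,
    ∀ δ, ∀ w ∈ supp (q δ), w ∈ supp (q (code w)) := by
  obtain ⟨x0, _⟩ := exists_min
  have h : ∀ w : J × L, ∃ κ, ∀ δ, w ∈ supp (q δ) → w ∈ supp (q κ) := by
    intro w
    by_cases h : ∃ δ, w ∈ supp (q δ)
    · obtain ⟨δ, h⟩ := h
      exact ⟨δ, fun _ _ => h⟩
    · exact ⟨x0, fun δ h' => absurd ⟨δ, h'⟩ h⟩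
  choose code hcode using h
  exact ⟨code, fun δ w hw => hcode w δ hw⟩

theorem countable_coords (q : K1 → Rep J L) (code : J × L → K1)
    (hcode : ∀ δ, ∀ w ∈ supp (q δ), w ∈ supp (q (code w))) (η : K1) :
    {w | (∃ δ, w ∈ supp (q δ)) ∧ code w < η}.Countable := by
  refine ((countable_Iio η).biUnion fun κ _ => (supp_finite (q κ)).countable).mono ?_
  rintro w ⟨⟨δ, h1⟩, h2⟩
  simp only [Set.mem_iUnion]
  exact ⟨code w, h2, hcode δ w h1⟩

theorem countable_atoms (q : K1 → Rep J L) (code : J × L → K1)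
    (hcode : ∀ δ, ∀ w ∈ supp (q δ), w ∈ supp (q (code w))) (η : K1) :
    {a : Atom J L | (∃ δ, a ∈ q δ) ∧ o1 code a < η ∧ o2 a < η}.Countable := by
  have hW := countable_coords q code hcode η
  have hI := countable_Iio η
  have h1 := (hI.prod (hI.prod (Set.countable_univ (α := ℕ)))).image
    fun z : K1 × K1 × ℕ => (Atom.co z.1 z.2.1 z.2.2 : Atom J L)
  have h2 := (hW.prod (hI.prod (Set.countable_univ (α := Bool)))).image
    fun z : (J × L) × K1 × Bool => (Atom.ph z.1.1 z.1.2 z.2.1 z.2.2 : Atom J L)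
  have h3 := (hW.prod hI).image
    fun z : (J × L) × K1 => (Atom.pm z.1.1 z.1.2 z.2 : Atom J L)
  refine ((h1.union h2).union h3).mono ?_
  rintro a ⟨⟨δ, h4⟩, h5, h6⟩
  cases a with
  | co α ξ k => exact Or.inl (Or.inl ⟨(α, ξ, k), ⟨h5, h6, trivial⟩, rfl⟩)
  | ph j β ξ b =>
    exact Or.inl (Or.inr ⟨((j, β), ξ, b), ⟨⟨⟨δ, Or.inl ⟨ξ, b, h4⟩⟩, h5⟩, h6, trivial⟩, rfl⟩)
  | pm j β α => exact Or.inr ⟨((j, β), α), ⟨⟨⟨δ, Or.inr ⟨α, h4⟩⟩, h5⟩, h6⟩, rfl⟩

theorem finite_traces {C : K1 → Set K1} (hC : IsLadder C) {p : Rep J L} (hp : Valid C p)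
    (δ : K1) : {ξ | ξ < δ ∧ ∃ j β γ, Atom.pm j β γ ∈ p ∧ δ < γ ∧ ξ ∈ C γ}.Finite := by
  have h1 : (⋃ a ∈ {a | a ∈ p ∧ Order.IsSuccLimit (o2 a) ∧ δ < o2 a},
      {ξ | ξ ∈ C (o2 a) ∧ ξ < δ}).Finite :=
    Set.Finite.biUnion (p.finite_toSet.subset fun a h => h.1)
      fun a h => hC.finite _ h.2.1 δ h.2.2
  refine h1.subset ?_
  rintro ξ ⟨h2, j, β, γ, h3, h4, h5⟩
  simp only [Set.mem_iUnion]
  exact ⟨Atom.pm j β γ, ⟨h3, hp.lim h3, h4⟩, h5, h2⟩

variable [LinearOrder J] [WellFoundedLT J] {C : K1 → Set K1} {g : L → K1 → K1 → Set (Rep J L)}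

open Classical in
theorem key (hC : IsLadder C) (q : K1 → Rep J L)
    (hq : ∀ δ, Order.IsSuccLimit δ → Valid C (q δ)) (x : K1 → K1)
    (hx : ∀ δ, Order.IsSuccLimit δ → x δ < δ ∧ ∀ k, Atom.co δ (x δ) k ∉ q δ)
    {Y : Type} (t : K1 → Y) (rk : Y → K1) (hrk : ∀ η, {y | rk y < η}.Countable)
    (ht : ∀ δ, Order.IsSuccLimit δ → rk (t δ) < δ) :
    ∃ δ δ' n n', Order.IsSuccLimit δ ∧ Order.IsSuccLimit δ' ∧ δ ≠ δ' ∧ n ≠ n' ∧ t δ = t δ' ∧
      x δ = x δ' ∧ ∃ r, Valid C r ∧ LE C g Set.univ r (insert (Atom.co δ (x δ) n) (q δ)) ∧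
        LE C g Set.univ r (insert (Atom.co δ' (x δ') n') (q δ')) := by
  obtain ⟨code, hcode⟩ := exists_code q
  have h0 : ∀ δ, ∃ μ, Order.IsSuccLimit δ → μ < δ ∧
      (∀ a ∈ q δ, o1 code a < δ → o1 code a < μ) ∧ (∀ a ∈ q δ, o2 a < δ → o2 a < μ) ∧
      (∀ ξ j β γ, ξ < δ → Atom.pm j β γ ∈ q δ → δ < γ → ξ ∈ C γ → ξ < μ) ∧
      x δ < μ ∧ rk (t δ) < μ := by
    intro δ
    by_cases hδ : Order.IsSuccLimit δ
    · obtain ⟨μ, h1, h2⟩ := exists_lt_limit hδ
        (S := ({y ∈ o1 code '' (q δ : Set (Atom J L)) | y < δ} ∪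
          {y ∈ o2 '' (q δ : Set (Atom J L)) | y < δ}) ∪
          ({ξ | ξ < δ ∧ ∃ j β γ, Atom.pm j β γ ∈ q δ ∧ δ < γ ∧ ξ ∈ C γ} ∪ {x δ, rk (t δ)}))
        (((((q δ).finite_toSet.image _).subset fun y h => h.1).union
          (((q δ).finite_toSet.image _).subset fun y h => h.1)).union
          ((finite_traces hC (hq δ hδ) δ).union (Set.toFinite _))) (by
          rintro s ((h | h) | (h | rfl | rfl))
          · exact h.2
          · exact h.2
          · exact h.1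
          · exact (hx δ hδ).1
          · exact ht δ hδ)
      refine ⟨μ, fun _ => ⟨h1, fun a ha h => h2 _ (Or.inl (Or.inl ⟨⟨a, ha, rfl⟩, h⟩)),
        fun a ha h => h2 _ (Or.inl (Or.inr ⟨⟨a, ha, rfl⟩, h⟩)),
        fun ξ j β γ h3 h4 h5 h6 => h2 _ (Or.inr (Or.inl ⟨h3, j, β, γ, h4, h5, h6⟩)),
        h2 _ (Or.inr (Or.inr (Or.inl rfl))), h2 _ (Or.inr (Or.inr (Or.inr rfl)))⟩⟩
    · exact ⟨δ, fun h => absurd h hδ⟩
  choose η0 hη0 using h0
  let τ : K1 → K1 → Set (Atom J L) × Set (J × L) × Set K1 × K1 × Y := fun δ η =>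
    ({a | a ∈ q δ ∧ o1 code a < η ∧ o2 a < η}, {w | w ∈ supp (q δ) ∧ code w < η},
      {ξ | ξ < η ∧ (ξ ∈ C δ ∨ ∃ j β γ, Atom.pm j β γ ∈ q δ ∧ δ < γ ∧ ξ ∈ C γ)}, x δ, t δ)
  have hXfin : ∀ δ η, Order.IsSuccLimit δ → η < δ → (τ δ η).2.2.1.Finite := by
    intro δ η h1 h2
    refine ((hC.finite δ h1 η h2).union (finite_traces hC (hq δ h1) δ)).subset ?_
    rintro ξ ⟨h3, h4 | h4⟩
    · exact Or.inl ⟨h4, h3⟩
    · exact Or.inr ⟨h3.trans h2, h4⟩
  obtain ⟨η, y, hy⟩ := jump hC η0 (fun δ h => (hη0 δ h).1) τ (by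
    intro η
    refine ((Set.countable_ofPred_finite_subset (countable_atoms q code hcode η)).prod
      ((Set.countable_ofPred_finite_subset (countable_coords q code hcode η)).prod
      ((Set.countable_ofPred_finite_subset (countable_Iio η)).prod
      ((countable_Iio η).prod (hrk η))))).mono ?_
    rintro _ ⟨δ, h1, h2, h3, rfl⟩
    refine ⟨⟨(q δ).finite_toSet.subset fun a h => h.1, fun a h => ⟨⟨δ, h.1⟩, h.2⟩⟩,
      ⟨(supp_finite (q δ)).subset fun a h => h.1, fun a h => ⟨⟨δ, h.1⟩, h.2⟩⟩,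
      ⟨hXfin δ η h1 h3, fun a h => h.1⟩, ?_, ?_⟩
    · exact (hη0 δ h1).2.2.2.2.1.trans_le h2
    · exact (hη0 δ h1).2.2.2.2.2.trans_le h2)
  choose D hD1 hD2 hD3 hD4 hD5 using hy
  have hB : ∀ δ, ∃ u, δ < u ∧ ∀ a ∈ q δ, o1 code a < u ∧ o2 a < u := by
    intro δ
    obtain ⟨u, hu⟩ := exists_bound (insert δ (o1 code '' (q δ : Set (Atom J L)) ∪
      o2 '' (q δ : Set (Atom J L)))) (((((q δ).finite_toSet.image _).union
        ((q δ).finite_toSet.image _)).insert δ).countable)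
    exact ⟨u, hu _ (Set.mem_insert _ _), fun a ha => ⟨hu _ (Or.inr (Or.inl ⟨a, ha, rfl⟩)),
      hu _ (Or.inr (Or.inr ⟨a, ha, rfl⟩))⟩⟩
  choose B hB1 hB2 using hB
  let θ : ℕ → K1 := fun n => Nat.rec η (fun _ z => max z (B (D z))) n
  have hθ : ∀ n, θ (n + 1) = max (θ n) (B (D (θ n))) := fun n => rfl
  have hθmono : Monotone θ := monotone_nat_of_le_succ fun n => by
    rw [hθ]; exact le_max_left _ _
  let d : ℕ → K1 := fun n => D (θ n)
  have hlim : ∀ n, Order.IsSuccLimit (d n) := fun n => hD1 _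
  have hθd : ∀ n, θ n ≤ d n := by
    intro n
    obtain ⟨ξ, h1, h2⟩ := hC.cofinal _ (hlim n) η (hD3 _)
    have h3 : θ n ≤ ξ := not_lt.1 fun h => absurd (hD5 _ ξ h1 h) (not_lt.2 h2.le)
    exact h3.trans (hC.lt _ (hlim n) ξ h1).le
  have hBθ : ∀ {m n}, m < n → B (d m) ≤ θ n := by
    intro m n h
    refine le_trans ?_ (hθmono (Nat.succ_le_of_lt h))
    rw [hθ]; exact le_max_right _ _
  have hdlt : ∀ {m n}, m < n → d m < θ n := fun h => (hB1 _).trans_le (hBθ h)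
  have ha1 : ∀ {m n a}, m < n → a ∈ q (d m) → o1 code a < θ n :=
    fun h ha => (hB2 _ _ ha).1.trans_le (hBθ h)
  have ha2 : ∀ {m n a}, m < n → a ∈ q (d m) → o2 a < θ n :=
    fun h ha => (hB2 _ _ ha).2.trans_le (hBθ h)
  have hb1 : ∀ {n a}, a ∈ q (d n) → o1 code a < d n → o1 code a < η :=
    fun ha h => ((hη0 _ (hlim _)).2.1 _ ha h).trans_le (hD2 _)
  have hb2 : ∀ {n a}, a ∈ q (d n) → o2 a < d n → o2 a < η :=
    fun ha h => ((hη0 _ (hlim _)).2.2.1 _ ha h).trans_le (hD2 _)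
  have hτ : ∀ m n, τ (d m) η = τ (d n) η := fun m n => (hD4 _).trans (hD4 _).symm
  have hroot : ∀ {n a} (m : ℕ), a ∈ q (d n) → o1 code a < η → o2 a < η → a ∈ q (d m) := by
    intro n a m h1 h2 h3
    have h4 : a ∈ (τ (d n) η).1 := ⟨h1, h2, h3⟩
    rw [hτ n m] at h4
    exact h4.1
  have hdown : ∀ {n a} (m : ℕ), a ∈ q (d n) → o1 code a < θ n → o2 a < θ n → a ∈ q (d m) :=
    fun m h1 h2 h3 => hroot m h1 (hb1 h1 (h2.trans_le (hθd _))) (hb2 h1 (h3.trans_le (hθd _)))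
  have hsmall : ∀ {n j β α ξ}, Atom.pm j β α ∈ q (d n) → ξ ∈ C α → ξ < θ n → ξ < η := by
    intro n j β α ξ h1 h2 h3
    rcases lt_trichotomy α (d n) with h | h | h
    · exact (hC.lt α ((hq _ (hlim n)).lim h1) ξ h2).trans (hb2 h1 h)
    · rw [h] at h2
      exact hD5 _ ξ h2 h3
    · exact ((hη0 _ (hlim n)).2.2.2.1 ξ j β α (h3.trans_le (hθd n)) h1 h h2).trans_le (hD2 _)
  have hdinj : ∀ {m n}, d m = d n → m = n := by
    intro m n h
    rcases lt_trichotomy m n with h1 | h1 | h1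
    · exact absurd h (ne_of_lt ((hdlt h1).trans_le (hθd n)))
    · exact h1
    · exact absurd h.symm (ne_of_lt ((hdlt h1).trans_le (hθd m)))
  have hRfin : (τ (d 0) η).2.1.Finite := (supp_finite (q (d 0))).subset fun a h => h.1
  have hcov : ∀ {m n j β α α' ξ}, m < n → Atom.pm j β α ∈ q (d m) → Atom.pm j β α' ∈ q (d n) →
      α ≠ α' → ξ ∈ C α → ξ ∈ C α' → (∃ b, Atom.ph j β ξ b ∈ q (d m)) ∨
        ((j, β) ∈ (τ (d 0) η).2.1 ∧ ξ ∈ (τ (d 0) η).2.2.1) := by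
    intro m n j β α α' ξ hmn h1 h2 hne h3 h4
    have h5 : code (j, β) < η := (hb1 h2 ((ha1 hmn h1 :).trans_le (hθd n)) :)
    have h6 : ξ < θ n := (hC.lt α ((hq _ (hlim m)).lim h1) ξ h3).trans (ha2 hmn h1 :)
    by_cases h7 : α' < d n
    · exact Or.inl ((hq _ (hlim m)).cov h1 (hroot m h2 h5 (hb2 h2 h7)) hne h3 h4)
    · right
      rw [hτ 0 n]
      refine ⟨⟨Or.inr ⟨α', h2⟩, h5⟩, hsmall h2 h4 h6, ?_⟩
      rcases lt_or_eq_of_le (not_lt.1 h7) with h8 | h8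
      · exact Or.inr ⟨j, β, α', h2, h8, h4⟩
      · left; rw [h8]; exact h4
  have hnew : ∀ {m n ξ k}, Atom.co (d m) ξ k ∈ q (d n) → m = n := by
    intro m n ξ k h
    rcases lt_trichotomy m n with h1 | h1 | h1
    · exact absurd (hb1 h ((hdlt h1).trans_le (hθd n))) (not_lt.2 (hD3 _).le)
    · exact h1
    · exact absurd ((ha1 h1 h :).trans_le (hθd m)) (lt_irrefl _)
  have hfit : Fit C (fun n => insert (Atom.co (d n) (x (d n)) n) (q (d n)))
      (hRfin.toFinset : Finset (J × L)) ((hXfin (d 0) η (hlim 0) (hD3 _)).toFinset : Finset K1) := by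
    refine ⟨fun n => valid_insert_co (hq _ (hlim n)) (hx _ (hlim n)).2 n, ?_, ?_, ?_, ?_⟩
    · intro m n α ξ k k' h1 h2
      rcases Finset.mem_insert.1 h1 with k1 | k1
      · injection k1 with e1 e2 e3
        rcases Finset.mem_insert.1 h2 with k2 | k2
        · injection k2 with e4 e5 e6
          rw [e3, e6]
          exact hdinj (e1.symm.trans e4)
        · rw [e1, e2] at k2
          have := hnew k2
          subst this
          exact absurd k2 ((hx _ (hlim m)).2 _)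
      · rcases Finset.mem_insert.1 h2 with k2 | k2
        · injection k2 with e4 e5 e6
          rw [e4, e5] at k1
          have := hnew k1
          subst this
          exact absurd k1 ((hx _ (hlim n)).2 _)
        · rcases lt_trichotomy m n with h | h | h
          · exact (hq _ (hlim m)).co k1 (hdown m k2 (ha1 h k1 :) (ha2 h k1 :))
          · subst h
            exact (hq _ (hlim m)).co k1 k2
          · exact (hq _ (hlim n)).co (hdown n k1 (ha1 h k2 :) (ha2 h k2 :)) k2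
    · intro m n j β ξ b b' h1 h2
      simp only [Finset.mem_insert, reduceCtorEq, false_or] at h1 h2
      rcases lt_trichotomy m n with h | h | h
      · exact (hq _ (hlim m)).ph h1 (hdown m h2 (ha1 h h1 :) (ha2 h h1 :))
      · subst h
        exact (hq _ (hlim m)).ph h1 h2
      · exact (hq _ (hlim n)).ph (hdown n h1 (ha1 h h2 :) (ha2 h h2 :)) h2
    · intro m n j β α ξ b h1 h2 h3
      simp only [Finset.mem_insert, reduceCtorEq, false_or] at h1 h2 ⊢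
      rcases lt_trichotomy m n with h | h | h
      · exact hroot n h2 (hb1 h1 ((ha1 h h2 :).trans_le (hθd n)) :) (hsmall h1 h3 (ha2 h h2 :))
      · subst h
        exact h2
      · exact hdown n h2 (ha1 h h1 :)
          ((hC.lt α ((hq _ (hlim n)).lim h1) ξ h3).trans (ha2 h h1 :))
    · intro m n j β α α' ξ h1 h2 hne h3 h4
      simp only [Finset.mem_insert, reduceCtorEq, false_or, Set.Finite.coe_toFinset] at h1 h2 ⊢
      rcases lt_trichotomy m n with h | h | h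
      · rcases hcov h h1 h2 hne h3 h4 with ⟨b, hb⟩ | hb
        · exact Or.inl ⟨m, b, Or.inl rfl, hb⟩
        · exact Or.inr hb
      · subst h
        obtain ⟨b, hb⟩ := (hq _ (hlim m)).cov h1 h2 hne h3 h4
        exact Or.inl ⟨m, b, Or.inl rfl, hb⟩
      · rcases hcov h h2 h1 hne.symm h4 h3 with ⟨b, hb⟩ | hb
        · exact Or.inl ⟨n, b, Or.inr rfl, hb⟩
        · exact Or.inr hb
  obtain ⟨m, n, hne, r, h1, h2, h3⟩ := amalg_two (g := g) hfit
  exact ⟨d m, d n, m, n, hlim m, hlim n, fun h => hne (hdinj h), hne,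
    congrArg (fun z => z.2.2.2.2) (hτ m n), congrArg (fun z => z.2.2.2.1) (hτ m n), r, h1, h2, h3⟩

/-- two compatible conditions of the same type -/
theorem key_plain (hC : IsLadder C) (q : K1 → Rep J L)
    (hq : ∀ δ, Order.IsSuccLimit δ → Valid C (q δ)) (t : K1 → ℕ) :
    ∃ δ δ', Order.IsSuccLimit δ ∧ Order.IsSuccLimit δ' ∧ δ ≠ δ' ∧ t δ = t δ' ∧
      ∃ r, Valid C r ∧ LE C g Set.univ r (q δ) ∧ LE C g Set.univ r (q δ') := by
  classical
  have hx : ∀ δ, ∃ ξ, Order.IsSuccLimit δ → ξ < δ ∧ ∀ k, Atom.co δ ξ k ∉ q δ := by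
    intro δ
    by_cases hδ : Order.IsSuccLimit δ
    · obtain ⟨ξ, h1, h2⟩ := exists_mem_ladder_not_mem hC hδ ((q δ).finite_toSet.image o2)
      exact ⟨ξ, fun _ => ⟨hC.lt δ hδ ξ h1, fun k hk => h2 ⟨_, hk, rfl⟩⟩⟩
    · exact ⟨δ, fun h => absurd h hδ⟩
  choose x hx using hx
  obtain ⟨b, hb⟩ := exists_min
  obtain ⟨δ, δ', n, n', h1, h2, h3, _, h5, _, r, h7, h8, h9⟩ := key (g := g) hC q hq x hx t
    (fun _ => b) (fun _ => Set.to_countable _) (fun δ hδ => by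
      obtain ⟨z, hz⟩ := exists_lt_of_limit hδ
      exact (hb z).trans_lt hz)
  exact ⟨δ, δ', h1, h2, h3, h5, r, h7, LE_trans isLowerSet_univ h8 (LE_insert_co _ _ _ _),
    LE_trans isLowerSet_univ h9 (LE_insert_co _ _ _ _)⟩

end Pool.Agent.H172Z.Unif
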