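import Mathlib
import Pool.Agent.H172Z.Unif.Om
import Pool.Agent.Helper539.AuerWalk

/-!
# A ground model Aronszajn tree of injections
-/

namespace Pool.Agent.H172Z.Unif

open Cardinal Pool.Agent.Helper126.Sus.Forc

structure GT {T : Type} (lt : T → T → Prop) (ht : T → K1) (col : K1 → T → ℕ) : Prop where
  trans : ∀ {x y z}, lt x y → lt y z → lt x z
  ht_lt : ∀ {x y}, lt x y → ht x < ht y
  uniq : ∀ {x y z}, lt x z → lt y z → ht x = ht y → x = y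
  pred : ∀ y ξ, ξ < ht y → ∃ x, ht x = ξ ∧ lt x y
  lev : ∀ ξ, ∃ x, ht x = ξ
  cnt : ∀ ξ, {x | ht x = ξ}.Countable
  spec : ∀ {δ δ' x y}, δ ≠ δ' → δ < ht x → δ' < ht y → (x = y ∨ lt x y) → col δ x ≠ col δ' y

theorem exists_GT : ∃ (T : Type) (lt : T → T → Prop) (ht : T → K1) (col : K1 → T → ℕ),
    GT lt ht col := by
  classical
  obtain ⟨e, he1, he2⟩ := Pool.Agent.Helper539.Auer.exists_coherent_injections countable_Iio
  let T := {x : K1 × (K1 → ℕ) // ∃ a, x.1 ≤ a ∧ ∀ ξ, x.2 ξ = if ξ < x.1 then e a ξ else 0}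
  have hext : ∀ x y : T, x.1.1 = y.1.1 → (∀ ξ < x.1.1, x.1.2 ξ = y.1.2 ξ) → x = y := by
    rintro ⟨⟨d, f⟩, a, ha, hf⟩ ⟨⟨d', f'⟩, a', ha', hf'⟩ h1 h2
    have h1' : d = d' := h1
    subst h1'
    refine Subtype.ext (Prod.ext rfl (funext fun ξ => ?_))
    by_cases h : ξ < d
    · exact h2 ξ h
    · have h3 := hf ξ
      have h4 := hf' ξ
      simp only [h, if_false] at h3 h4
      exact h3.trans h4.symm
  have hinj : ∀ y : T, ∀ δ δ', δ < y.1.1 → δ' < y.1.1 → y.1.2 δ = y.1.2 δ' → δ = δ' := by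
    rintro ⟨⟨d, f⟩, a, ha, hf⟩ δ δ' h1 h2 h3
    have h4 := hf δ
    have h5 := hf δ'
    simp only at h1 h2 h3 ha
    simp only [h1, h2, if_true] at h4 h5
    exact he1 a (h1.trans_le ha) (h2.trans_le ha) (h4.symm.trans (h3.trans h5))
  refine ⟨T, fun x y => x.1.1 < y.1.1 ∧ ∀ ξ < x.1.1, x.1.2 ξ = y.1.2 ξ, fun x => x.1.1,
    fun δ x => x.1.2 δ, ?_, ?_, ?_, ?_, ?_, ?_, ?_⟩
  · intro x y z h1 h2
    exact ⟨h1.1.trans h2.1, fun ξ h => (h1.2 ξ h).trans (h2.2 ξ (h.trans h1.1))⟩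
  · exact fun h => h.1
  · intro x y z h1 h2 h3
    exact hext x y h3 fun ξ h => (h1.2 ξ h).trans (h2.2 ξ (h3 ▸ h)).symm
  · rintro ⟨⟨d, f⟩, a, ha, hf⟩ ξ hξ
    refine ⟨⟨(ξ, fun ζ => if ζ < ξ then e a ζ else 0), a, hξ.le.trans ha, fun _ => rfl⟩, rfl,
      hξ, fun ζ h => ?_⟩
    have h1 := hf ζ
    have h2 : ζ < ξ := h
    have h3 : ζ < d := h2.trans hξ
    simp only [h3, if_true] at h1
    simp only [h2, if_true]
    exact h1.symm
  · intro ξ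
    exact ⟨⟨(ξ, fun ζ => if ζ < ξ then e ξ ζ else 0), ξ, le_rfl, fun _ => rfl⟩, rfl⟩
  · intro d
    refine Set.MapsTo.countable_of_injOn (f := fun x : T => fun ξ : Set.Iio d => x.1.2 ξ.1)
      ?_ ?_ (he2 d)
    · rintro ⟨⟨d', f⟩, a, ha, hf⟩ hx
      have hx' : d' = d := hx
      subst hx'
      refine ⟨⟨a, ha⟩, funext fun ξ => ?_⟩
      have h1 := hf ξ.1
      have h2 : ξ.1 < d' := ξ.2
      simp only [h2, if_true] at h1
      exact h1.symm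
    · intro x hx y hy hxy
      have hx' : x.1.1 = d := hx
      have hy' : y.1.1 = d := hy
      exact hext x y (hx'.trans hy'.symm) fun ξ h => congrFun hxy ⟨ξ, hx' ▸ h⟩
  · intro δ δ' x y hne h1 h2 h3 h4
    rcases h3 with rfl | h3
    · exact hne (hinj x δ δ' h1 h2 h4)
    · exact hne (hinj y δ δ' (h1.trans h3.1) h2 ((h3.2 δ h1).symm.trans h4))

variable {T : Type} {lt : T → T → Prop} {ht : T → K1} {col : K1 → T → ℕ}

theorem GT.unb (h : GT lt ht col) {A : Set T} (hA : ∀ μ, ∃ y ∈ A, μ < ht y) (d : K1) :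
    ∃ z, ht z = d ∧ ∀ μ, ∃ y ∈ A, μ < ht y ∧ lt z y := by
  by_contra hcon
  push Not at hcon
  have h1 : ∀ z, ∃ μ, ht z = d → ∀ y ∈ A, μ < ht y → ¬ lt z y := by
    intro z
    by_cases hz : ht z = d
    · obtain ⟨μ, hμ⟩ := hcon z hz
      exact ⟨μ, fun _ => hμ⟩
    · exact ⟨d, fun h => absurd h hz⟩
  choose b hb using h1
  obtain ⟨u, hu⟩ := exists_bound (insert d (b '' {z | ht z = d})) (((h.cnt d).image b).insert d)
  obtain ⟨y, h2, h3⟩ := hA u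
  obtain ⟨z, h4, h5⟩ := h.pred y d ((hu d (Set.mem_insert _ _)).trans h3)
  exact hb z h4 y h2 ((hu _ (Or.inr ⟨z, h4, rfl⟩)).trans h3) h5

/-- the nodes with extensions of arbitrarily large height -/
def Tall (lt : T → T → Prop) (ht : T → K1) (x : T) : Prop := ∀ μ, ∃ y, μ < ht y ∧ lt x y

theorem GT.tall_nonempty (h : GT lt ht col) : ∃ x, Tall lt ht x := by
  obtain ⟨b, _⟩ := exists_min
  obtain ⟨z, _, hz⟩ := h.unb (A := Set.univ) (fun μ => by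
    obtain ⟨ν, hν⟩ := exists_gt μ
    obtain ⟨y, hy⟩ := h.lev ν
    exact ⟨y, trivial, hy ▸ hν⟩) b
  refine ⟨z, fun μ => ?_⟩
  obtain ⟨y, _, hy⟩ := hz μ
  exact ⟨y, hy⟩

theorem GT.tall_down (h : GT lt ht col) {x y : T} (hxy : lt x y) (hy : Tall lt ht y) :
    Tall lt ht x := fun μ => by
  obtain ⟨z, h1, h2⟩ := hy μ
  exact ⟨z, h1, h.trans hxy h2⟩

theorem GT.tall_up (h : GT lt ht col) {x : T} (hx : Tall lt ht x) (μ : K1) :
    ∃ z, μ < ht z ∧ lt x z ∧ Tall lt ht z := by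
  obtain ⟨d, hd⟩ := exists_gt (max μ (ht x))
  obtain ⟨z, h1, h2⟩ := h.unb (A := {y | lt x y}) (fun ν => by
    obtain ⟨y, h3, h4⟩ := hx ν
    exact ⟨y, h4, h3⟩) d
  refine ⟨z, h1 ▸ (le_max_left _ _).trans_lt hd, ?_, fun ν => ?_⟩
  · obtain ⟨y, h3, _, h4⟩ := h2 d
    obtain ⟨x', h5, h6⟩ := h.pred z (ht x) (h1 ▸ (le_max_right _ _).trans_lt hd)
    rw [← h.uniq (h.trans h6 h4) h3 h5]
    exact h6
  · obtain ⟨y, _, h3⟩ := h2 ν
    exact ⟨y, h3⟩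

theorem GT.countable_below (h : GT lt ht col) (η : K1) : {x | ht x < η}.Countable := by
  refine ((countable_Iio η).biUnion fun ξ _ => h.cnt ξ).mono fun x hx => ?_
  simp only [Set.mem_iUnion]
  exact ⟨ht x, hx, rfl⟩

end Pool.Agent.H172Z.Unif
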