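import Mathlib
import Pool.Agent.H172Z.Unif.Delta
import Pool.Agent.H172Z.Unif.Tree

/-!
# What the iteration forces
-/

namespace Pool.Agent.H172Z.Unif

open Cardinal Pool.Agent.Helper126.Sus.Forc

set_option linter.unusedSectionVars false

variable {J L : Type} [LinearOrder J] [WellFoundedLT J]

/-- the conditions -/
def Cd (C : K1 → Set K1) (_g : L → K1 → K1 → Set (Rep J L)) : Type := {p : Rep J L // Valid C p}

variable {C : K1 → Set K1} {g : L → K1 → K1 → Set (Rep J L)}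

instance : Preorder (Cd C g) where
  le r q := LE C g Set.univ r.1 q.1
  le_refl r := LE_refl _ r.1
  le_trans _ _ _ h h' := LE_trans isLowerSet_univ h h'

instance : Nonempty (Cd C g) :=
  ⟨⟨∅, fun h => absurd h (by simp), fun h => absurd h (by simp), fun h => absurd h (by simp),
    fun h => absurd h (by simp)⟩⟩

theorem mem_of_le {r q : Cd C g} (h : r ≤ q) {a : Atom J L} (ha : a ∈ q.1) : a ∈ r.1 :=
  h.1 a ha (inS_univ a)

theorem key_cd (hC : IsLadder C) (q : K1 → Cd C g) (t : K1 → ℕ) :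
    ∃ δ δ', δ ≠ δ' ∧ t δ = t δ' ∧ ∃ r, r ≤ q δ ∧ r ≤ q δ' := by
  obtain ⟨δ, δ', _, _, h1, h2, r, h3, h4, h5⟩ := key_plain (g := g) hC (fun δ => (q δ).1)
    (fun δ _ => (q δ).2) t
  exact ⟨δ, δ', h1, h2, ⟨r, h3⟩, h4, h5⟩

theorem ccc (hC : IsLadder C) : CCC (Cd C g) := by
  intro A hA
  by_contra hcon
  have h1 : #K1 ≤ #A := by
    rw [mk_K1, ← succ_aleph0, Order.succ_le_iff, ← not_le, le_aleph0_iff_set_countable]
    exact hcon
  obtain ⟨f⟩ := h1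
  obtain ⟨δ, δ', h2, _, h3⟩ := key_cd hC (fun δ => (f δ).1) fun _ => 0
  exact hA _ (f δ).2 _ (f δ').2 (fun h => h2 (f.injective (Subtype.ext h))) h3

theorem exists_predense {P : Type} [Preorder P] (hP : CCC P) (D : Set P) :
    ∃ A ⊆ D, A.Countable ∧ ∀ p ∈ D, ∃ a ∈ A, ∃ s, s ≤ a ∧ s ≤ p := by
  obtain ⟨A, hA⟩ := zorn_subset {A : Set P | A ⊆ D ∧ ∀ a ∈ A, ∀ b ∈ A,
      (∃ s, s ≤ a ∧ s ≤ b) → a = b}
    (by
      intro c hc hchain
      refine ⟨⋃₀ c, ⟨Set.sUnion_subset fun s hs => (hc hs).1, ?_⟩,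
        fun s hs => Set.subset_sUnion_of_mem hs⟩
      rintro a ⟨s, hs, ha⟩ b ⟨t, ht, hb⟩ hab
      rcases hchain.total hs ht with h | h
      · exact (hc ht).2 a (h ha) b hb hab
      · exact (hc hs).2 a ha b (h hb) hab)
  refine ⟨A, hA.prop.1, hP A fun a ha b hb hne h => hne (hA.prop.2 a ha b hb h), ?_⟩
  intro p hp
  by_contra hcon
  push Not at hcon
  have hpA : p ∉ A := fun hpA => hcon p hpA p le_rfl le_rfl
  have hmem : insert p A ∈ {A : Set P | A ⊆ D ∧ ∀ a ∈ A, ∀ b ∈ A,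
      (∃ s, s ≤ a ∧ s ≤ b) → a = b} := by
    refine ⟨Set.insert_subset hp hA.prop.1, ?_⟩
    rintro a (rfl | ha) b (rfl | hb) ⟨s, h1, h2⟩
    · rfl
    · exact absurd h1 (hcon b hb s h2)
    · exact absurd h2 (hcon a ha s h1)
    · exact hA.prop.2 a ha b hb ⟨s, h1, h2⟩
  exact hpA (hA.le_of_ge hmem (Set.subset_insert p A) (Set.mem_insert p A))

/-! ### Ground model objects -/

/-- the canonical name of a ground model relation -/
def gl (P : Type) {T : Type} (lt : T → T → Prop) (x y : T) : Set P := {_p | lt x y}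

theorem meets_ground {P : Type} [Preorder P] {h : Prop} {p : P} :
    p ∈ meets {_q : P | h} ↔ h := by
  constructor
  · intro h1
    obtain ⟨_, _, _, h2, _⟩ := h1 p le_rfl
    exact h2
  · exact fun h1 => meets_of_mem h1

theorem meets_gl {P : Type} [Preorder P] {T : Type} {lt : T → T → Prop} {x y : T} {p : P} :
    p ∈ meets (gl P lt x y) ↔ lt x y := meets_ground

theorem fex_intro {P : Type} [Preorder P] {ι : Type} {φ : ι → Set P} {p : P} (i : ι)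
    (h : ∀ q ≤ p, q ∈ φ i) : p ∈ fex φ :=
  mem_fex.2 fun q hq => ⟨q, le_rfl, i, h q hq⟩

theorem fimp_intro {P : Type} [Preorder P] {φ ψ : Set P} {p : P}
    (h : ∀ q ≤ p, q ∈ φ → q ∈ ψ) : p ∈ fimp φ ψ :=
  mem_fimp.2 fun q hq h' => ⟨q, le_rfl, h q hq h'⟩

variable {T : Type} {lt : T → T → Prop} {ht : T → K1} {col : K1 → T → ℕ}

theorem isAronszajn (hC : IsLadder C) (hT : GT lt ht col) (p : Cd C g) :
    p ∈ IsAronszajn (gl (Cd C g) lt) ht := by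
  refine ⟨hT.cnt, ⟨fun x y z => fimp_intro fun q _ h => ?_, ⟨fun x y => fimp_intro fun q _ h => ?_,
    fun x y z => fimp_intro fun q _ h => ?_⟩, fun y ξ hξ => ?_, hT.lev⟩, ?_⟩
  · exact meets_gl.2 (hT.trans (meets_gl.1 h.1) (meets_gl.1 h.2))
  · exact hT.ht_lt (meets_gl.1 h)
  · exact hT.uniq (meets_gl.1 h.1) (meets_gl.1 h.2)
  · obtain ⟨x, h1, h2⟩ := hT.pred y ξ hξ
    exact fex_intro x fun q _ => ⟨h1, meets_gl.2 h2⟩
  · intro q _ hq
    obtain ⟨r, _, B, hB1, hB2⟩ := mem_fex.1 hq q le_rfl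
    choose σ hσ using exists_gt
    choose s hs x hx1 hx2 using fun δ => mem_fex.1 (hB2 (σ δ)) r le_rfl
    have hx3 : ∀ δ, δ < ht (x δ) := fun δ => by
      have : ht (x δ) = σ δ := hx1 δ
      rw [this]; exact hσ δ
    obtain ⟨δ, δ', hne, h1, u, h2, h3⟩ := key_cd hC s fun δ => col δ (x δ)
    by_cases h4 : x δ = x δ'
    · exact hT.spec hne (hx3 δ) (hx3 δ') (Or.inl h4) h1
    · obtain ⟨v, _, hv⟩ := mem_fimp.1 (hB1 (x δ) (x δ') h4) u (h2.trans (hs δ))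
        ⟨meets_down (hx2 δ) h2, meets_down (hx2 δ') h3⟩
      refine hv v le_rfl ⟨fun w _ hw => ?_, fun w _ hw => ?_⟩
      · exact hT.spec hne (hx3 δ) (hx3 δ') (Or.inr (meets_gl.1 hw)) h1
      · exact hT.spec hne.symm (hx3 δ') (hx3 δ) (Or.inr (meets_gl.1 hw)) h1.symm

/-! ### The Cohen colouring has no uniformization -/

/-- the Cohen colouring -/
def cc (C : K1 → Set K1) (g : L → K1 → K1 → Set (Rep J L)) (α ξ : K1) (k : ℕ) : Set (Cd C g) :=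
  {p | Atom.co α ξ k ∈ p.1}

theorem of_meets_cc {p : Cd C g} {α ξ : K1} {k : ℕ} (h : p ∈ meets (cc C g α ξ k)) :
    ∃ r ≤ p, Atom.co α ξ k ∈ r.1 := by
  obtain ⟨r, hr, s, hs, h1⟩ := h p le_rfl
  exact ⟨r, hr, mem_of_le h1 hs⟩

theorem isColouring_cc (p : Cd C g) : p ∈ IsColouring C (cc C g) := by
  classical
  refine fun α ξ _ => ⟨mem_fex.2 fun q _ => ?_, fun k l => fimp_intro fun q _ h => ?_⟩
  · by_cases h : ∃ k, Atom.co α ξ k ∈ q.1
    · obtain ⟨k, hk⟩ := h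
      exact ⟨q, le_rfl, k, meets_of_mem hk⟩
    · push Not at h
      exact ⟨⟨_, valid_insert_co q.2 h 0⟩, LE_insert_co _ _ _ _, 0,
        meets_of_mem (Finset.mem_insert_self _ _)⟩
  · obtain ⟨r, hr, h1⟩ := of_meets_cc h.1
    obtain ⟨s, hs, h2⟩ := of_meets_cc (meets_down h.2 hr)
    exact s.2.co (mem_of_le hs h1) h2

theorem not_unif (hC : IsLadder C) (hT : GT lt ht col) (p : Cd C g) :
    p ∈ fnot (Unif C (gl (Cd C g) lt) ht) := by
  classical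
  intro q _ hq
  obtain ⟨r, _, hr⟩ := mem_fimp.1 (hq (cc C g)) q le_rfl (isColouring_cc q)
  obtain ⟨r', _, U, hU⟩ := mem_fex.1 hr r le_rfl
  obtain ⟨r0, _, φ, ⟨h1, h2, h3⟩, h4, h5⟩ := mem_fex.1 hU r' le_rfl
  obtain ⟨r1, hr1, x0, hx0⟩ := mem_fex.1 h1 r0 le_rfl
  obtain ⟨r2, hr2, h6⟩ := mem_fimp.1 (h3 x0) r1 hr1 hx0
  have main : ∀ δ, ∃ (s : Cd C g) (ξ : K1) (x : T), Order.IsSuccLimit δ → s ≤ r0 ∧ ξ < δ ∧
      (∀ k, Atom.co δ ξ k ∉ s.1) ∧ ht x = ξ ∧ s ∈ meets (U x) ∧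
      ∀ k, ∀ u ≤ s, u ∈ meets (φ x k) → ∃ v ≤ u, Atom.co δ ξ k ∈ v.1 := by
    intro δ
    by_cases hδ : Order.IsSuccLimit δ
    swap
    · exact ⟨r0, δ, x0, fun h => absurd h hδ⟩
    obtain ⟨r3, hr3, y', h7, _, h8⟩ := mem_fex.1 (h6 δ) r2 le_rfl
    obtain ⟨y, h9, h10⟩ := hT.pred y' δ h7
    have hr30 : r3 ≤ r0 := hr3.trans (hr2.trans hr1)
    obtain ⟨r4, hr4, h11⟩ := mem_fimp.1 (h2 y y') r3 hr30 ⟨meets_gl.2 h10, h8⟩
    obtain ⟨r5, hr5, h12⟩ := mem_fimp.1 (h5 y (h9 ▸ hδ)) r4 (hr4.trans hr30) h11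
    obtain ⟨r6, hr6, F, hF⟩ := mem_fex.1 h12 r5 le_rfl
    obtain ⟨ξ, h13, h14⟩ := exists_mem_ladder_not_mem hC hδ
      (F.finite_toSet.union (r6.1.finite_toSet.image o2))
    have h15 : ξ < δ := hC.lt δ hδ ξ h13
    obtain ⟨x, h16, h17⟩ := hT.pred y ξ (h9 ▸ h15)
    have hr60 : r6 ≤ r0 := hr6.trans (hr5.trans (hr4.trans hr30))
    refine ⟨r6, ξ, x, fun _ => ⟨hr60, h15, fun k hk => h14 (Or.inr ⟨_, hk, rfl⟩), h16, ?_,
      fun k u hu h18 => ?_⟩⟩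
    · refine meets_of_dense fun u hu => ?_
      exact mem_fimp.1 (h2 x y) u (hu.trans hr60)
        ⟨meets_gl.2 h17, meets_down h11 (hu.trans (hr6.trans hr5))⟩
    · obtain ⟨v, hv, h19⟩ := mem_fimp.1 (hF ξ ⟨h9 ▸ h13, fun h => h14 (Or.inl h)⟩ x) u hu
        ⟨h16, meets_gl.2 h17⟩
      obtain ⟨w, hw, h20⟩ := mem_fimp.1 (h19 k) v le_rfl (meets_down h18 hv)
      rw [h9] at h20
      obtain ⟨z, hz, h21⟩ := of_meets_cc h20
      exact ⟨z, hz.trans (hw.trans hv), h21⟩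
  choose s ξ x hs using main
  obtain ⟨δ, δ', n, n', hδ, hδ', _, hn, hx, _, u, hu, h7, h8⟩ := key (g := g) hC
    (fun δ => (s δ).1) (fun δ _ => (s δ).2) ξ (fun δ h => ⟨(hs δ h).2.1, (hs δ h).2.2.1⟩) x ht
    hT.countable_below (fun δ h => by rw [(hs δ h).2.2.2.1]; exact (hs δ h).2.1)
  let u' : Cd C g := ⟨u, hu⟩
  have h9 : u' ≤ s δ := LE_trans isLowerSet_univ h7 (LE_insert_co _ _ _ _)
  have h10 : u' ≤ s δ' := LE_trans isLowerSet_univ h8 (LE_insert_co _ _ _ _)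
  have h11 : Atom.co δ (ξ δ) n ∈ u'.1 := h7.1 _ (Finset.mem_insert_self _ _) trivial
  have h12 : Atom.co δ' (ξ δ') n' ∈ u'.1 := h8.1 _ (Finset.mem_insert_self _ _) trivial
  obtain ⟨v, hv, h13, _⟩ := mem_fimp.1 (h4 (x δ)) u' (h9.trans (hs δ hδ).1)
    (meets_down (hs δ hδ).2.2.2.2.1 h9)
  obtain ⟨w, hw, k, hk⟩ := mem_fex.1 h13 v le_rfl
  obtain ⟨z, hz, h14⟩ := (hs δ hδ).2.2.2.2.2 k w (hw.trans (hv.trans h9)) hk
  obtain ⟨z', hz', h15⟩ := (hs δ' hδ').2.2.2.2.2 k w (hw.trans (hv.trans h10)) (hx ▸ hk)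
  have h16 : k = n := z.2.co h14 (mem_of_le (hz.trans (hw.trans hv)) h11)
  have h17 : k = n' := z'.2.co h15 (mem_of_le (hz'.trans (hw.trans hv)) h12)
  exact hn (h16.symm.trans h17)

/-! ### All 2-colourings have uniformizations -/

theorem le_of_below {j : J} {r : Cd C g} {a : Cd C g} (h : LE C g (Set.Iio j) r.1 a.1)
    (ha : ∀ x ∈ a.1, inS (Set.Iio j) x) : r ≤ a := by
  refine ⟨fun x hx _ => h.1 x hx (ha x hx), fun i _ => ?_⟩
  by_cases hi : i < j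
  · exact h.2 i hi
  · exact (Rel_iff C g).2 fun β α ξ b h1 => absurd (ha _ h1) hi

/-- a condition of an initial part is compatible with `q` in the whole iteration -/
theorem lift {j : J} (q : Cd C g) {r0 : Rep J L} (h0 : Valid C r0)
    (h : LE C g (Set.Iio j) r0 q.1) : ∃ r : Cd C g, r ≤ q ∧ LE C g (Set.Iio j) r.1 r0 := by
  obtain ⟨r, h1, h2, h3, _⟩ := assemble (g := g) (fit_single q.2) {()} (S := Set.univ)
    (isLowerSet_Iio j) h0 (fun _ _ => h) ∅ (by simp) (by simp) (by simp) (by simp)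
    (fun _ _ _ h8 => absurd h8 (Set.notMem_empty _))
  exact ⟨⟨r, h1⟩, h2 () (Finset.mem_singleton_self _), h3⟩

theorem exists_stage (hcof : ∀ S : Set J, #S ≤ ℵ_ 1 → ∃ b, ∀ s ∈ S, s < b)
    (A : K1 → K1 → Set (Cd C g)) (hA : ∀ α ξ, (A α ξ).Countable) :
    ∃ j : J, ∀ α ξ, ∀ a ∈ A α ξ, ∀ x ∈ a.1, inS (Set.Iio j) x := by
  have h0 : ℵ₀ ≤ ℵ_ 1 := aleph0_le_aleph 1
  obtain ⟨j, hj⟩ := hcof (⋃ z : K1 × K1, ⋃ a ∈ A z.1 z.2, Prod.fst '' supp a.1) (by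
    refine (mk_iUnion_le_sum_mk).trans ?_
    refine (Cardinal.sum_le_sum _ (fun _ => ℵ₀) fun z => ?_).trans ?_
    · exact Cardinal.le_aleph0_iff_set_countable.2
        ((hA _ _).biUnion fun a _ => ((supp_finite a.1).image _).countable)
    · rw [Cardinal.sum_const']
      simp only [mk_prod, lift_id, mk_K1]
      rw [mul_eq_self h0]
      exact (mul_le_mul' le_rfl h0).trans (mul_eq_self h0).le)
  refine ⟨j, fun α ξ a ha x hx => ?_⟩
  cases x with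
  | co _ _ _ => trivial
  | ph i β ζ b =>
    refine hj i ?_
    simp only [Set.mem_iUnion]
    exact ⟨(α, ξ), a, ha, (i, β), Or.inl ⟨ζ, b, hx⟩, rfl⟩
  | pm i β γ =>
    refine hj i ?_
    simp only [Set.mem_iUnion]
    exact ⟨(α, ξ), a, ha, (i, β), Or.inr ⟨γ, hx⟩, rfl⟩

/-- the generic uniformizing function -/
def un (C : K1 → Set K1) (g : L → K1 → K1 → Set (Rep J L)) (j : J) (β : L) (ξ : K1) (k : ℕ) :
    Set (Cd C g) :=
  {p | ∃ b, Atom.ph j β ξ b ∈ p.1 ∧ k = b.toNat}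

theorem of_meets_un {p : Cd C g} {j : J} {β : L} {ξ : K1} {k : ℕ}
    (h : p ∈ meets (un C g j β ξ k)) : ∃ r ≤ p, ∃ b, Atom.ph j β ξ b ∈ r.1 ∧ k = b.toNat := by
  obtain ⟨r, hr, s, ⟨b, h1, h2⟩, h3⟩ := h p le_rfl
  exact ⟨r, hr, b, mem_of_le h3 h1, h2⟩

theorem unifTwo (hC : IsLadder C) (hT : GT lt ht col)
    (hcof : ∀ S : Set J, #S ≤ ℵ_ 1 → ∃ b, ∀ s ∈ S, s < b)
    (hg : ∀ N : K1 → K1 → Set (Rep J L), (∀ α ξ, (N α ξ).Countable) → ∃ β, g β = N)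
    (p : Cd C g) : p ∈ UnifTwo C (gl (Cd C g) lt) ht := by
  classical
  refine fun f => fimp_intro fun q _ hq => ?_
  obtain ⟨hq1, hq2⟩ := hq
  choose A hA1 hA2 hA3 using fun α ξ : K1 =>
    exists_predense (ccc (g := g) hC) {a : Cd C g | a ≤ q ∧ a ∈ meets (f α ξ 1)}
  obtain ⟨j, hj⟩ := exists_stage hcof A hA2
  obtain ⟨β, hβ⟩ := hg (fun α ξ => Subtype.val '' A α ξ) fun α ξ => (hA2 α ξ).image _
  refine fex_intro (fun x => {_p | Tall lt ht x}) fun q1 hq1' =>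
    fex_intro (fun x k => un C g j β (ht x) k) fun r hr => ?_
  have hrq : r ≤ q := hr.trans hq1'
  refine ⟨⟨?_, fun x y => fimp_intro fun s _ h => ?_, fun x => fimp_intro fun s _ h μ => ?_⟩,
    fun x => fimp_intro fun s _ _ => ⟨mem_fex.2 fun u _ => ?_,
      fun k l => fimp_intro fun u _ h => ?_⟩, fun y hy => mem_fimp.2 fun s hs _ => ?_⟩
  · obtain ⟨x, hx⟩ := hT.tall_nonempty
    exact fex_intro x fun _ _ => meets_ground.2 hx
  · exact meets_ground.2 (hT.tall_down (meets_gl.1 h.1) (meets_ground.1 h.2))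
  · obtain ⟨z, h1, h2, h3⟩ := hT.tall_up (meets_ground.1 h) μ
    exact fex_intro z fun _ _ => ⟨h1, meets_gl.2 h2, meets_ground.2 h3⟩
  · obtain ⟨v, h1, h2, ⟨b, h3⟩, _⟩ := add_ph (g := g) u.2 j β (ht x)
    exact ⟨⟨v, h1⟩, h2, b.toNat, meets_of_mem ⟨b, h3, rfl⟩⟩
  · obtain ⟨v, hv, b, h1, h2⟩ := of_meets_un h.1
    obtain ⟨w, hw, b', h3, h4⟩ := of_meets_un (meets_down h.2 hv)
    have : b = b' := w.2.ph (mem_of_le hw h1) h3
    show k = l
    rw [h2, h4, this]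
  · obtain ⟨v, h1, h2, h3⟩ := add_pm (g := g) hC s.2 j β hy
    let v' : Cd C g := ⟨v, h1⟩
    have hvq : v' ≤ q := le_trans (show v' ≤ s from h2) (hs.trans hrq)
    refine ⟨v', h2, fex_intro (v.image o2) fun w hw ξ hξ x => fimp_intro fun w1 hw1 h4 k =>
      mem_fimp.2 fun w2 hw2 h5 => ?_⟩
    have h6 : ht x = ξ := h4.1
    have h5' : w2 ∈ meets (un C g j β ξ k) := h6 ▸ h5
    obtain ⟨z, hz, b, h7, h8⟩ := of_meets_un h5'
    have hzv : z ≤ v' := hz.trans (hw2.trans (hw1.trans hw))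
    have h9 : Dec C g j z.1 (g β (ht y) ξ) b := (Rel_iff C g).1 (hzv.2 j trivial) β (ht y) ξ b h3
      hξ.1 h7 fun h => hξ.2 (Finset.mem_image.2 ⟨_, h, rfl⟩)
    rw [hβ] at h9
    cases b with
    | true =>
      obtain ⟨_, ⟨a, ha, rfl⟩, h10⟩ := h9.1 rfl
      refine ⟨z, hz, ?_⟩
      rw [h8]
      exact meets_down (hA1 _ _ ha).2 (le_of_below h10 (hj _ _ a ha))
    | false =>
      obtain ⟨z1, hz1, k', hk'⟩ := mem_fex.1 (hq1 (ht y) ξ ⟨hy, hξ.1⟩).1 z (hzv.trans hvq)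
      obtain ⟨z2, _, h10⟩ := mem_fimp.1 (hq2 (ht y) ξ ⟨hy, hξ.1⟩ k') z1
        (hz1.trans (hzv.trans hvq)) hk'
      have h11 : k' < 2 := h10
      have h12 : k' ≠ 1 := by
        rintro rfl
        obtain ⟨a, ha, e, h13, h14⟩ := hA3 (ht y) ξ z1 ⟨hz1.trans (hzv.trans hvq), hk'⟩
        exact h9.2 rfl a.1 ⟨a, ha, rfl⟩ e.1 e.2
          (LE_mono (Set.subset_univ _) (show e ≤ z from h14.trans hz1))
          (LE_mono (Set.subset_univ _) h13)
      have h13 : k = k' := by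
        rw [h8]; simp; omega
      exact ⟨z1, hz1.trans hz, h13 ▸ hk'⟩

/-! ### Bookkeeping -/

theorem mk_arrow_le {A X : Type} {κ : Cardinal.{0}} (hκ : ℵ₀ ≤ κ) (hA : #A ≤ κ)
    (hX : #X ≤ 2 ^ κ) : #(A → X) ≤ 2 ^ κ := by
  rw [← power_def]
  calc #X ^ #A ≤ (2 ^ κ) ^ #A := power_le_power_right hX
    _ = 2 ^ (κ * #A) := (power_mul).symm
    _ ≤ 2 ^ κ := power_le_power_left two_ne_zero ((mul_le_mul' le_rfl hA).trans
        (mul_eq_self hκ).le)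

theorem mk_prod_le {A B : Type} {lam : Cardinal.{0}} (h0 : ℵ₀ ≤ lam) (hA : #A ≤ lam)
    (hB : #B ≤ lam) : #(A × B) ≤ lam := by
  rw [mk_prod, lift_id, lift_id]
  exact (mul_le_mul' hA hB).trans (mul_eq_self h0).le

theorem mk_rep_le {J L : Type} {lam : Cardinal.{0}} (hlam : ℵ_ 1 ≤ lam) (hL : #L ≤ lam)
    (hJ : #J ≤ lam) : #(Rep J L) ≤ lam := by
  have h0 : ℵ₀ ≤ lam := (aleph0_le_aleph 1).trans hlam
  have hK : #K1 ≤ lam := by rw [mk_K1]; exact hlam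
  have hN : #ℕ ≤ lam := by rw [mk_nat]; exact h0
  have hB : #Bool ≤ lam := mk_le_aleph0.trans h0
  let f : Atom J L → (K1 × K1 × ℕ) ⊕ ((J × L × K1 × Bool) ⊕ (J × L × K1)) := fun a =>
    match a with
    | .co α ξ k => Sum.inl (α, ξ, k)
    | .ph j β ξ b => Sum.inr (Sum.inl (j, β, ξ, b))
    | .pm j β α => Sum.inr (Sum.inr (j, β, α))
  have hf : Function.Injective f := by
    intro a a' h
    cases a <;> cases a' <;> simp_all [f]
  have hA : #(Atom J L) ≤ lam := by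
    refine (mk_le_of_injective hf).trans ?_
    simp only [mk_sum, lift_id]
    have h2 : lam + lam = lam := add_eq_self h0
    calc _ ≤ lam + (lam + lam) := add_le_add (mk_prod_le h0 hK (mk_prod_le h0 hK hN))
          (add_le_add (mk_prod_le h0 hJ (mk_prod_le h0 hL (mk_prod_le h0 hK hB)))
            (mk_prod_le h0 hJ (mk_prod_le h0 hL hK)))
      _ = lam := by rw [h2, h2]
  rcases finite_or_infinite (Atom J L) with h | h
  · have : Finite (Finset (Atom J L)) := inferInstance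
    exact ((mk_lt_aleph0).le).trans h0
  · rw [mk_finset_of_infinite]; exact hA

theorem exists_enum {X : Type} {S : Set X} (hS : S.Countable) :
    ∃ h : ℕ → Option X, ∀ x, x ∈ S ↔ ∃ n, h n = some x := by
  by_cases hne : S.Nonempty
  · obtain ⟨f, rfl⟩ := hS.exists_eq_range hne
    refine ⟨fun n => some (f n), fun x => ?_⟩
    simp
  · rw [Set.not_nonempty_iff_eq_empty] at hne
    subst hne
    exact ⟨fun _ => none, by simp⟩

theorem exists_book (J : Type) (hJ : ℵ_ 1 ≤ #J) :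
    ∃ g : Set J → K1 → K1 → Set (Rep J (Set J)),
      ∀ N : K1 → K1 → Set (Rep J (Set J)), (∀ α ξ, (N α ξ).Countable) → ∃ β, g β = N := by
  have hJ0 : ℵ₀ ≤ #J := (aleph0_le_aleph 1).trans hJ
  have hlam : ℵ_ 1 ≤ 2 ^ #J := hJ.trans (cantor _).le
  have h0 : ℵ₀ ≤ 2 ^ #J := (aleph0_le_aleph 1).trans hlam
  have hR : #(Rep J (Set J)) ≤ 2 ^ #J := mk_rep_le hlam (by rw [mk_set]) (cantor _).le
  have hO : #(Option (Rep J (Set J))) ≤ 2 ^ #J := by
    rw [mk_option]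
    exact (add_le_add hR (one_le_aleph0.trans h0)).trans (add_eq_self h0).le
  have hK : #K1 ≤ #J := by rw [mk_K1]; exact hJ
  have hNat : #ℕ ≤ #J := by rw [mk_nat]; exact hJ0
  have hNm : #(K1 → K1 → ℕ → Option (Rep J (Set J))) ≤ #(Set J) := by
    rw [mk_set]
    exact mk_arrow_le hJ0 hK (mk_arrow_le hJ0 hK (mk_arrow_le hJ0 hNat hO))
  obtain ⟨F⟩ := hNm
  let f := Function.invFun F
  have hf : ∀ N, f (F N) = N := Function.leftInverse_invFun F.injective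
  refine ⟨fun β α ξ => {r | ∃ n, f β α ξ n = some r}, fun N hN => ?_⟩
  choose h hh using fun α ξ => exists_enum (hN α ξ)
  refine ⟨F h, ?_⟩
  funext α ξ
  ext r
  rw [hh α ξ r]
  simp only [hf, Set.mem_ofPred_eq]

theorem main (C : K1 → Set K1) (hC : IsLadder C) :
    ∃ (P : Type) (_ : Preorder P) (T : Type) (lt : T → T → Set P) (ht : T → K1),
      Nonempty P ∧ CCC P ∧ ∀ p : P,
        p ∈ IsAronszajn lt ht ∧ p ∈ UnifTwo C lt ht ∧ p ∈ fnot (Unif C lt ht) := by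
  have h0 : ℵ₀ ≤ ℵ_ 1 := aleph0_le_aleph 1
  have hreg : (Order.succ (ℵ_ 1 : Cardinal.{0})).IsRegular := isRegular_succ h0
  let J : Type := (Order.succ (ℵ_ 1 : Cardinal.{0})).ord.ToType
  have hJ : #J = Order.succ (ℵ_ 1) := by
    show #((Order.succ (ℵ_ 1 : Cardinal.{0})).ord.ToType) = _
    rw [mk_toType, card_ord]
  have hcof : ∀ S : Set J, #S ≤ ℵ_ 1 → ∃ b, ∀ s ∈ S, s < b := by
    intro S hS
    by_contra hcon
    push Not at hcon
    have h1 : IsCofinal S := fun b => by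
      obtain ⟨s, hs, hb⟩ := hcon b
      exact ⟨s, hs, hb⟩
    have h2 := Order.cof_le h1
    rw [Ordinal.cof_toType, hreg.cof_ord] at h2
    exact absurd (h2.trans hS) (not_le.2 (Order.lt_succ _))
  obtain ⟨g, hg⟩ := exists_book J ((Order.le_succ _).trans hJ.ge)
  obtain ⟨T, lt, ht, col, hT⟩ := exists_GT
  exact ⟨Cd C g, inferInstance, T, gl (Cd C g) lt, ht, inferInstance, ccc hC,
    fun p => ⟨isAronszajn hC hT p, unifTwo hC hT hcof hg p, not_unif hC hT p⟩⟩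

end Pool.Agent.H172Z.Unif
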